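import Mathlib
import Pool.Agent.H87.GR.Num

/-!
# The numerical inequality for the total correlation
-/

set_option autoImplicit false

namespace Pool.Agent.H87.PW

open Finset Real
open Pool.Agent.H87.GR (sq_le_exp)

theorem log_four_le : log 4 ≤ 139 / 100 := by
  have h1 : log 4 = 2 * log 2 := by
    rw [show (4 : ℝ) = 2 ^ 2 by norm_num, Real.log_pow]
    norm_num
  have := Real.log_two_lt_d9
  rw [h1]
  linarith

theorem num_pw (N : ℝ) (hN : 1 ≤ N) (s : ℝ) (hs : 2 ≤ s) (lam : ℝ) (hlam0 : 0 ≤ lam)
    (hlamN : lam ≤ N) (hlamL : lam ≤ Real.exp (s / 2) * log N) (x : ℝ) (hx : 0 < x)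
    (Φ : ℝ) (h1 : x < 1 / 4 → x * (-log x - 1 / 2) ≤ Φ)
    (h2 : 1 / 4 ≤ x → 19 / 100 ≤ Φ ∧ (log x - log 4) / 2 ≤ Φ) :
    1 / 30 * lam * (x * (log (N / x) - s)) ≤ N * Φ := by
  have hN0 : 0 < N := by linarith
  obtain ⟨L, hL⟩ : ∃ L, L = log N := ⟨_, rfl⟩
  have hL0 : 0 ≤ L := hL ▸ Real.log_nonneg hN
  have hNe : N = Real.exp L := by rw [hL, Real.exp_log hN0]
  rw [← hL] at hlamL
  rcases lt_or_ge x (1 / 4) with hx2 | hx2
  · have h3 := h1 hx2
    have hlx : 1 ≤ -log x := by
      rw [← Real.log_inv, Real.le_log_iff_exp_le (by positivity)]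
      have h4 : 4 ≤ x⁻¹ := by
        rw [le_inv_comm₀ (by norm_num) hx]
        norm_num at hx2 ⊢
        linarith
      have := Real.exp_one_lt_d9
      linarith
    rw [Real.log_div hN0.ne' hx.ne', ← hL]
    have h5 : lam * (L - s) ≤ 5 / 2 * N := by
      rcases le_or_gt L s with h6 | h6
      · have : lam * (L - s) ≤ 0 :=
          mul_nonpos_of_nonneg_of_nonpos hlam0 (by linarith)
        linarith
      · have h7 : lam * (L - s) ≤ Real.exp (L / 2) * L * L := by
          have h8 : lam ≤ Real.exp (L / 2) * L :=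
            hlamL.trans (mul_le_mul_of_nonneg_right
              (Real.exp_le_exp.2 (by linarith)) hL0)
          exact mul_le_mul h8 (by linarith) (by linarith) (by positivity)
        have h8 := sq_le_exp L hL0
        have h10 : N = Real.exp (L / 2) * Real.exp (L / 2) := by
          rw [← Real.exp_add, hNe]
          congr 1
          ring
        have h11 := mul_le_mul_of_nonneg_left h8 (Real.exp_pos (L / 2)).le
        rw [h10]
        nlinarith
    have h6 : lam * (-log x) ≤ N * (-log x) :=
      mul_le_mul_of_nonneg_right hlamN (by linarith)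
    have h7 : 1 / 30 * lam * (L - log x - s) ≤ N * (-log x - 1 / 2) := by
      have : 1 / 30 * lam * (L - log x - s) = 1 / 30 * (lam * (L - s)) +
        1 / 30 * (lam * (-log x)) := by ring
      rw [this]
      have h8 : N ≤ N * (-log x) := le_mul_of_one_le_right hN0.le hlx
      nlinarith
    have h8 := mul_le_mul_of_nonneg_left h7 hx.le
    have h9 := mul_le_mul_of_nonneg_left h3 hN0.le
    nlinarith
  · obtain ⟨h3, h4⟩ := h2 hx2
    obtain ⟨w, hw⟩ : ∃ w, w = log (N / x) - s := ⟨_, rfl⟩
    rw [← hw]
    rcases le_or_gt w 0 with hw0 | hw0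
    · have : 1 / 30 * lam * (x * w) ≤ 0 :=
        mul_nonpos_of_nonneg_of_nonpos (by positivity)
          (mul_nonpos_of_nonneg_of_nonpos hx.le hw0)
      have := mul_nonneg hN0.le (show 0 ≤ Φ by linarith)
      linarith
    · have hy : N / x = Real.exp (s + w) := by
        rw [hw, show s + (log (N / x) - s) = log (N / x) by ring,
          Real.exp_log (by positivity)]
      have hNx : N = x * Real.exp (s + w) := by
        rw [← hy]
        field_simp
      have hlx : log x = L - (s + w) := by
        have h5 : log (N / x) = L - log x := by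
          rw [Real.log_div hN0.ne' hx.ne', hL]
        rw [hw, h5]
        ring
      have key : 1 / 30 * lam * w ≤ Real.exp (s + w) * Φ := by
        rcases le_or_gt (L / 2) (s + w) with h5 | h5
        · have h6 : lam * w ≤ Real.exp (s / 2) * (2 * (s + w)) * w := by
            refine mul_le_mul_of_nonneg_right ?_ hw0.le
            exact hlamL.trans (mul_le_mul_of_nonneg_left (by linarith) (Real.exp_pos _).le)
          obtain ⟨u, hu⟩ : ∃ u, u = s / 2 + w := ⟨_, rfl⟩
          have hu0 : 0 ≤ u := by linarith
          have h7 : u ^ 2 ≤ 5 / 8 * Real.exp u := by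
            have := sq_le_exp (2 * u) (by linarith)
            rw [show 2 * u / 2 = u by ring] at this
            nlinarith
          have h8 : (s + w) * w ≤ 2 * u ^ 2 := by
            have h9 : s + w ≤ 2 * u := by linarith
            have h10 : w ≤ u := by linarith
            calc (s + w) * w ≤ (2 * u) * u := mul_le_mul h9 h10 hw0.le (by linarith)
              _ = 2 * u ^ 2 := by ring
          have h9 : Real.exp (s + w) = Real.exp (s / 2) * Real.exp u := by
            rw [← Real.exp_add, hu]
            congr 1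
            ring
          rw [h9]
          have h10 : Real.exp (s / 2) * Real.exp u * (19 / 100) ≤
              Real.exp (s / 2) * Real.exp u * Φ :=
            mul_le_mul_of_nonneg_left (by linarith) (by positivity)
          have h11 : Real.exp (s / 2) * (2 * (s + w)) * w ≤
              Real.exp (s / 2) * (5 / 2 * Real.exp u) := by
            have : Real.exp (s / 2) * (2 * (s + w)) * w =
              Real.exp (s / 2) * (2 * ((s + w) * w)) := by ring
            rw [this]
            refine mul_le_mul_of_nonneg_left ?_ (Real.exp_pos _).le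
            nlinarith
          have h12 : 0 < Real.exp (s / 2) * Real.exp u := by positivity
          nlinarith
        · have h6 : L / 30 ≤ Φ := by
            rw [hlx] at h4
            have := log_four_le
            rcases le_or_gt L 5 with h7 | h7
            · linarith
            · linarith
          have h7 : Real.exp (s + w) * (L / 30) ≤ Real.exp (s + w) * Φ :=
            mul_le_mul_of_nonneg_left h6 (Real.exp_pos _).le
          have h8 : lam * w ≤ Real.exp (s / 2) * L * w :=
            mul_le_mul_of_nonneg_right hlamL hw0.le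
          have h9 : w ≤ Real.exp w := by
            have := Real.add_one_le_exp w
            linarith
          have h10 : Real.exp (s / 2) ≤ Real.exp s := Real.exp_le_exp.2 (by linarith)
          have h11 : Real.exp (s / 2) * w ≤ Real.exp (s + w) := by
            rw [Real.exp_add]
            exact mul_le_mul h10 h9 hw0.le (Real.exp_pos _).le
          have h12 := mul_le_mul_of_nonneg_left h11 hL0
          nlinarith
      have h6 := mul_le_mul_of_nonneg_left key hx.le
      calc 1 / 30 * lam * (x * w) = x * (1 / 30 * lam * w) := by ring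
        _ ≤ x * (Real.exp (s + w) * Φ) := h6
        _ = N * Φ := by rw [hNx]; ring

/-- The large sums. -/
theorem large_bound (T : ℝ) (hT : 1 / 4 ≤ T) :
    1 / √((⌊T / 2⌋₊ : ℝ) + 1) + Real.exp ⌊T / 2⌋₊ * Real.exp (-(2 * T * (1 - Real.exp (-1)))) ≤
      2 / √T := by
  have hT0 : 0 < T := by linarith
  have hs : 0 < √T := Real.sqrt_pos.2 hT0
  have h1 : T / 2 < (⌊T / 2⌋₊ : ℝ) + 1 := Nat.lt_floor_add_one _
  have h2 : 1 / √((⌊T / 2⌋₊ : ℝ) + 1) ≤ 1.42 / √T := by
    have h3 : √T / 1.42 ≤ √((⌊T / 2⌋₊ : ℝ) + 1) := by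
      apply Real.le_sqrt_of_sq_le
      rw [div_pow, Real.sq_sqrt hT0.le]
      norm_num
      linarith
    have h4 : 1 / √((⌊T / 2⌋₊ : ℝ) + 1) ≤ 1 / (√T / 1.42) :=
      one_div_le_one_div_of_le (by positivity) h3
    refine h4.trans (le_of_eq ?_)
    field_simp
  have h5 : Real.exp ⌊T / 2⌋₊ * Real.exp (-(2 * T * (1 - Real.exp (-1)))) ≤
      Real.exp (-(3 / 4 * T)) := by
    rw [← Real.exp_add, Real.exp_le_exp]
    have h6 : (⌊T / 2⌋₊ : ℝ) ≤ T / 2 := Nat.floor_le (by linarith)
    have h7 : Real.exp (-1) ≤ 3 / 8 := by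
      rw [Real.exp_neg, inv_le_comm₀ (Real.exp_pos _) (by norm_num)]
      have := Real.exp_one_gt_d9
      norm_num
      linarith
    nlinarith
  have h6 : Real.exp (-(3 / 4 * T)) ≤ 0.58 / √T := by
    rw [le_div_iff₀ hs]
    -- √T ≤ 0.58 exp(3T/4)
    have h7 : √T ≤ 0.58 * Real.exp (3 / 4 * T) := by
      apply Real.sqrt_le_iff.2
      refine ⟨by positivity, ?_⟩
      have h8 := Real.add_one_le_exp (3 / 2 * T - 1)
      have h9 : Real.exp (3 / 2 * T - 1) = Real.exp (3 / 2 * T) / Real.exp 1 := Real.exp_sub _ _
      rw [h9, le_div_iff₀ (Real.exp_pos _)] at h8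
      have h10 := Real.exp_one_gt_d9
      have h11 : (0.58 * Real.exp (3 / 4 * T)) ^ 2 = 0.58 ^ 2 * Real.exp (3 / 2 * T) := by
        rw [mul_pow, ← Real.exp_nat_mul]
        congr 2
        push_cast
        ring
      rw [h11]
      norm_num
      nlinarith
    calc Real.exp (-(3 / 4 * T)) * √T ≤ Real.exp (-(3 / 4 * T)) *
          (0.58 * Real.exp (3 / 4 * T)) :=
          mul_le_mul_of_nonneg_left h7 (Real.exp_pos _).le
      _ = 0.58 * (Real.exp (-(3 / 4 * T)) * Real.exp (3 / 4 * T)) := by ring
      _ = 0.58 := by rw [← Real.exp_add]; simp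
  calc _ ≤ 1.42 / √T + 0.58 / √T := add_le_add h2 (h5.trans h6)
    _ = 2 / √T := by rw [← add_div]; norm_num

end Pool.Agent.H87.PW
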