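import Mathlib

/-!
# Fair coins: the concentration of a sum of independent variables

If `p i` is a distribution on `{0, …, F - 1}` in which the mass above `e i` is `u i ≤ p i (e i)`, then
`p i` is a mixture of points and of fair coins on `{e i, v}`, `v > e i`, the coins with total weight
`2 u i`. Sperner's theorem bounds the concentration of the sum.
-/

set_option autoImplicit false

namespace Pool.Agent.H87.PW

open Finset Real
open scoped BigOperators

/-- The number of subsums equal to `s`. -/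
noncomputable def cs {g : ℕ} (t : Fin g → ℕ) (s : ℤ) : Finset (Fin g → Bool) :=
  Finset.univ.filter fun b => ∑ i, (if b i then (t i : ℤ) else 0) = s

/-- The probability that a sum of fair coins is `s`. -/
noncomputable def cp {g : ℕ} (t : Fin g → ℕ) (s : ℤ) : ℝ := (cs t s).card / 2 ^ g

theorem cp_nonneg {g : ℕ} (t : Fin g → ℕ) (s : ℤ) : 0 ≤ cp t s := by
  unfold cp
  positivity

/-- Sperner. -/
theorem cs_card {g : ℕ} (t : Fin g → ℕ) (ht : ∀ i, 0 < t i) (s : ℤ) :
    (cs t s).card ≤ g.choose (g / 2) := by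
  classical
  obtain ⟨φ, hφ⟩ : ∃ φ : (Fin g → Bool) → Finset (Fin g), ∀ b,
      φ b = Finset.univ.filter fun i => b i = true := ⟨_, fun _ => rfl⟩
  have hinj : Function.Injective φ := by
    intro a b hab
    rw [hφ, hφ] at hab
    funext i
    have h1 : i ∈ Finset.univ.filter (fun i => a i = true) ↔
        i ∈ Finset.univ.filter (fun i => b i = true) := by rw [hab]
    simp only [Finset.mem_filter, Finset.mem_univ, true_and] at h1
    cases ha : a i <;> cases hb : b i <;> simp [ha, hb] at h1 ⊢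
  have hsum : ∀ b : Fin g → Bool, ∑ i, (if b i then (t i : ℤ) else 0) = ∑ i ∈ φ b, (t i : ℤ) := by
    intro b
    rw [hφ, Finset.sum_filter]
  have hanti : IsAntichain (· ⊆ ·) (((cs t s).image φ : Finset (Finset (Fin g))) :
      Set (Finset (Fin g))) := by
    intro X hX Y hY hne hsub
    obtain ⟨a, ha, rfl⟩ := Finset.mem_image.1 (Finset.mem_coe.1 hX)
    obtain ⟨b, hb, rfl⟩ := Finset.mem_image.1 (Finset.mem_coe.1 hY)
    have h1 : ∑ i ∈ φ a, (t i : ℤ) = s := by
      rw [← hsum]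
      exact (Finset.mem_filter.1 ha).2
    have h2 : ∑ i ∈ φ b, (t i : ℤ) = s := by
      rw [← hsum]
      exact (Finset.mem_filter.1 hb).2
    have hss : φ a ⊂ φ b := Finset.ssubset_iff_subset_ne.2 ⟨hsub, hne⟩
    obtain ⟨x, hx1, hx2⟩ := Finset.exists_of_ssubset hss
    have h3 : ∑ i ∈ φ a, (t i : ℤ) < ∑ i ∈ φ b, (t i : ℤ) := by
      refine Finset.sum_lt_sum_of_subset hsub hx1 hx2 ?_ ?_
      · exact_mod_cast ht x
      · intro j _ _
        exact_mod_cast (ht j).le
    linarith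
  have h := hanti.sperner
  rw [Finset.card_image_of_injective _ hinj, Fintype.card_fin] at h
  exact h

/-- The central binomial coefficient. -/
theorem central (h : ℕ) : ((2 * h).choose h) ^ 2 * (2 * h + 1) ≤ 16 ^ h := by
  induction h with
  | zero => simp
  | succ h ih =>
    have e1 := Nat.succ_mul_centralBinom_succ h
    rw [Nat.centralBinom, Nat.centralBinom] at e1
    -- (h+1) C(2h+2,h+1) = 2 (2h+1) C(2h,h)
    set a := (2 * h).choose h
    set b := (2 * (h + 1)).choose (h + 1)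
    have h1 : (h + 1) ^ 2 * (b ^ 2 * (2 * (h + 1) + 1)) ≤ (h + 1) ^ 2 * 16 ^ (h + 1) := by
      calc (h + 1) ^ 2 * (b ^ 2 * (2 * (h + 1) + 1)) =
            ((h + 1) * b) ^ 2 * (2 * h + 3) := by ring
        _ = (2 * (2 * h + 1) * a) ^ 2 * (2 * h + 3) := by rw [e1]
        _ = (a ^ 2 * (2 * h + 1)) * (4 * ((2 * h + 1) * (2 * h + 3))) := by ring
        _ ≤ 16 ^ h * (4 * (4 * (h + 1) ^ 2)) := by
            refine Nat.mul_le_mul ih ?_
            nlinarith
        _ = (h + 1) ^ 2 * 16 ^ (h + 1) := by ring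
    exact Nat.le_of_mul_le_mul_left h1 (by positivity)

theorem choose_sq (g : ℕ) : (g.choose (g / 2)) ^ 2 * (g + 1) ≤ 4 ^ g := by
  rcases Nat.even_or_odd' g with ⟨h, hg | hg⟩
  · rw [hg, Nat.mul_div_cancel_left h (by norm_num)]
    calc ((2 * h).choose h) ^ 2 * (2 * h + 1) ≤ 16 ^ h := central h
      _ = 4 ^ (2 * h) := by rw [pow_mul]; norm_num
  · have e0 : g / 2 = h := by omega
    rw [e0, hg]
    have e1 : 2 * (2 * h + 1).choose h = (2 * (h + 1)).choose (h + 1) := by
      have h1 : (2 * (h + 1)).choose (h + 1) = (2 * h + 1).choose h + (2 * h + 1).choose (h + 1) := by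
        rw [show 2 * (h + 1) = (2 * h + 1) + 1 by ring, Nat.choose_succ_succ]
      have h2 : (2 * h + 1).choose (h + 1) = (2 * h + 1).choose h := by
        have := Nat.choose_symm_half h
        exact this
      omega
    have h3 := central (h + 1)
    rw [← e1] at h3
    have h4 : 4 * (((2 * h + 1).choose h) ^ 2 * (2 * h + 1 + 1)) ≤ 4 * 4 ^ (2 * h + 1) := by
      calc 4 * (((2 * h + 1).choose h) ^ 2 * (2 * h + 1 + 1)) ≤
            (2 * (2 * h + 1).choose h) ^ 2 * (2 * (h + 1) + 1) := by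
            have : (2 * (2 * h + 1).choose h) ^ 2 = 4 * ((2 * h + 1).choose h) ^ 2 := by ring
            rw [this, mul_assoc]
            refine Nat.mul_le_mul_left 4 (Nat.mul_le_mul_left _ (by omega))
        _ ≤ 16 ^ (h + 1) := h3
        _ = 4 * 4 ^ (2 * h + 1) := by
            rw [← pow_succ', show (16 : ℕ) = 4 ^ 2 by norm_num, ← pow_mul]
            congr 1
    exact Nat.le_of_mul_le_mul_left h4 (by norm_num)

theorem beta_le (g : ℕ) : ((g.choose (g / 2) : ℕ) : ℝ) / 2 ^ g ≤ 1 / √(g + 1) := by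
  have h1 : (((g.choose (g / 2) : ℕ) : ℝ)) ^ 2 * (g + 1) ≤ 4 ^ g := by
    exact_mod_cast choose_sq g
  have hg : (0 : ℝ) < (g : ℝ) + 1 := by positivity
  have hs : (0 : ℝ) < √((g : ℝ) + 1) := Real.sqrt_pos.2 hg
  rw [div_le_div_iff₀ (by positivity) hs, one_mul]
  have h2 : (((g.choose (g / 2) : ℕ) : ℝ) * √((g : ℝ) + 1)) ^ 2 ≤ (2 ^ g) ^ 2 := by
    rw [mul_pow, Real.sq_sqrt hg.le, ← pow_mul, mul_comm g 2, pow_mul]
    norm_num
    exact h1
  exact (pow_le_pow_iff_left₀ (by positivity) (by positivity) (by norm_num)).1 h2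

/-- One more coin. -/
theorem cp_cons {g : ℕ} (a : ℕ) (t : Fin g → ℕ) (s : ℤ) :
    cp (Fin.cons a t : Fin (g + 1) → ℕ) s = (cp t s + cp t (s - a)) / 2 := by
  classical
  have hc : ∀ {g : ℕ} (t : Fin g → ℕ) (s : ℤ), ((cs t s).card : ℝ) =
      ∑ b : Fin g → Bool, if ∑ i, (if b i then (t i : ℤ) else 0) = s then (1 : ℝ) else 0 := by
    intro g t s
    unfold cs
    rw [Finset.card_filter]
    push_cast
    rfl
  unfold cp
  rw [hc, hc, hc, ← (Fin.consEquiv (fun _ : Fin (g + 1) => Bool)).sum_comp,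
    Fintype.sum_prod_type]
  simp only [Fintype.sum_bool, Fin.consEquiv_apply, Fin.sum_univ_succ, Fin.cons_zero,
    Fin.cons_succ, if_true, Bool.false_eq_true, if_false, zero_add]
  have e1 : ∀ b : Fin g → Bool, ((a : ℤ) + ∑ i, (if b i then (t i : ℤ) else 0) = s) ↔
      (∑ i, (if b i then (t i : ℤ) else 0) = s - a) := fun b => by
    constructor <;> intro h <;> linarith
  simp only [e1]
  rw [pow_succ]
  field_simp
  ring

/-- **The concentration bound.** -/
theorem coin (F : ℕ) (α γ z : ℝ) (hα : 0 ≤ α) (hγ : 0 ≤ γ) (hz0 : 0 ≤ z) (hz1 : z ≤ 1)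
    (hb : ∀ g : ℕ, ((g.choose (g / 2) : ℕ) : ℝ) / 2 ^ g ≤ α + γ * z ^ g) (N : ℕ) :
    ∀ (p : Fin N → Fin F → ℝ) (e : Fin N → Fin F) (u : Fin N → ℝ),
      (∀ i v, 0 ≤ p i v) → (∀ i, ∑ v, p i v = 1) →
      (∀ i, u i = ∑ v ∈ Finset.univ.filter (fun v => e i < v), p i v) →
      (∀ i, u i ≤ p i (e i)) → ∀ (g : ℕ) (t : Fin g → ℕ), (∀ i, 0 < t i) → ∀ s : ℤ,
      ∑ v : Fin N → Fin F, (∏ i, p i (v i)) * cp t (s - ∑ i, ((v i : ℕ) : ℤ)) ≤
        α + γ * z ^ g * ∏ i, (1 - 2 * u i * (1 - z)) := by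
  classical
  induction N with
  | zero =>
    intro p e u _ _ _ _ g t ht s
    simp only [Finset.univ_unique, Finset.sum_singleton, Finset.univ_eq_empty,
      Finset.prod_empty, one_mul, Finset.sum_empty, sub_zero, mul_one]
    refine le_trans ?_ (hb g)
    unfold cp
    refine div_le_div_of_nonneg_right ?_ (by positivity)
    exact_mod_cast cs_card t ht s
  | succ N ih =>
    intro p e u hp0 hp1 hu hue g t ht s
    have hY := ih (fun i => p i.succ) (fun i => e i.succ) (fun i => u i.succ)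
      (fun i v => hp0 _ v) (fun i => hp1 _) (fun i => hu _) (fun i => hue _)
    obtain ⟨Y, hYdef⟩ : ∃ Y : ℤ → ℝ, ∀ s, Y s = ∑ w : Fin N → Fin F,
      (∏ i, p i.succ (w i)) * cp t (s - ∑ i, ((w i : ℕ) : ℤ)) := ⟨_, fun _ => rfl⟩
    obtain ⟨Pi0, hPi0⟩ : ∃ Pi0 : ℝ, Pi0 = ∏ i : Fin N, (1 - 2 * u i.succ * (1 - z)) := ⟨_, rfl⟩
    have hsum : ∑ v : Fin (N + 1) → Fin F, (∏ i, p i (v i)) *
        cp t (s - ∑ i, ((v i : ℕ) : ℤ)) = ∑ a : Fin F, p 0 a * Y (s - (a : ℕ)) := by
      rw [← (Fin.consEquiv (fun _ : Fin (N + 1) => Fin F)).sum_comp, Fintype.sum_prod_type]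
      refine Finset.sum_congr rfl fun a _ => ?_
      rw [hYdef, Finset.mul_sum]
      refine Finset.sum_congr rfl fun w _ => ?_
      simp only [Fin.consEquiv_apply, Fin.prod_univ_succ, Fin.cons_zero, Fin.cons_succ,
        Fin.sum_univ_succ]
      rw [mul_assoc, sub_sub]
    rw [hsum]
    have hYle : ∀ s', Y s' ≤ α + γ * z ^ g * Pi0 := by
      intro s'
      rw [hYdef, hPi0]
      exact hY g t ht s'
    have hpair : ∀ a : Fin F, e 0 < a → Y (s - (e 0 : ℕ)) + Y (s - (a : ℕ)) ≤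
        2 * (α + γ * z ^ (g + 1) * Pi0) := by
      intro a ha
      have ha' : ((e 0 : Fin F) : ℕ) < (a : ℕ) := ha
      have h1 := hY (g + 1) (Fin.cons ((a : ℕ) - (e 0 : ℕ)) t) (by
        intro i
        refine Fin.cases ?_ ?_ i
        · simp only [Fin.cons_zero]
          omega
        · intro j
          simp only [Fin.cons_succ]
          exact ht j) (s - (e 0 : ℕ))
      rw [← hPi0] at h1
      have h2 : Y (s - (e 0 : ℕ)) + Y (s - (a : ℕ)) = 2 * ∑ w : Fin N → Fin F,
          (∏ i, p i.succ (w i)) * cp (Fin.cons ((a : ℕ) - (e 0 : ℕ)) t : Fin (g + 1) → ℕ)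
            (s - (e 0 : ℕ) - ∑ i, ((w i : ℕ) : ℤ)) := by
        rw [hYdef, hYdef, ← Finset.sum_add_distrib, Finset.mul_sum]
        refine Finset.sum_congr rfl fun w _ => ?_
        rw [cp_cons]
        have h3 : s - (e 0 : ℕ) - ∑ i, ((w i : ℕ) : ℤ) - (((a : ℕ) - (e 0 : ℕ) : ℕ) : ℤ) =
            s - (a : ℕ) - ∑ i, ((w i : ℕ) : ℤ) := by
          rw [Nat.cast_sub ha'.le]
          ring
        rw [h3]
        ring
      rw [h2]
      linarith
    obtain ⟨B0, hB0⟩ : ∃ B0, B0 = α + γ * z ^ g * Pi0 := ⟨_, rfl⟩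
    obtain ⟨B1, hB1⟩ : ∃ B1, B1 = α + γ * z ^ (g + 1) * Pi0 := ⟨_, rfl⟩
    rw [← hB0] at hYle
    rw [← hB1] at hpair
    -- splitting
    have hsp : ∀ f : Fin F → ℝ, ∑ a, f a = ∑ a ∈ Finset.univ.filter (fun a => a < e 0), f a +
        (f (e 0) + ∑ a ∈ Finset.univ.filter (fun a => e 0 < a), f a) := by
      intro f
      rw [← Finset.sum_filter_add_sum_filter_not Finset.univ (fun a => a < e 0)]
      congr 1
      have h1 : Finset.univ.filter (fun a : Fin F => ¬ a < e 0) =
          insert (e 0) (Finset.univ.filter fun a => e 0 < a) := by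
        ext a
        simp only [Finset.mem_filter, Finset.mem_univ, true_and, Finset.mem_insert, not_lt]
        constructor
        · intro h
          rcases h.eq_or_lt with h2 | h2
          · exact Or.inl h2.symm
          · exact Or.inr h2
        · rintro (h | h)
          · exact h.ge
          · exact h.le
      rw [h1, Finset.sum_insert (by simp)]
    have hmass := hp1 0
    rw [hsp (p 0), ← hu 0] at hmass
    have hlow : ∑ a ∈ Finset.univ.filter (fun a => a < e 0), p 0 a * Y (s - (a : ℕ)) ≤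
        (∑ a ∈ Finset.univ.filter (fun a => a < e 0), p 0 a) * B0 := by
      rw [Finset.sum_mul]
      exact Finset.sum_le_sum fun a _ => mul_le_mul_of_nonneg_left (hYle _) (hp0 0 a)
    have hhigh : ∑ a ∈ Finset.univ.filter (fun a => e 0 < a), p 0 a * Y (s - (a : ℕ)) ≤
        u 0 * (2 * B1) - u 0 * Y (s - (e 0 : ℕ)) := by
      have h1 : ∑ a ∈ Finset.univ.filter (fun a => e 0 < a), p 0 a * Y (s - (a : ℕ)) ≤
          ∑ a ∈ Finset.univ.filter (fun a => e 0 < a), p 0 a *
            (2 * B1 - Y (s - (e 0 : ℕ))) := by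
        refine Finset.sum_le_sum fun a ha => mul_le_mul_of_nonneg_left ?_ (hp0 0 a)
        have := hpair a (Finset.mem_filter.1 ha).2
        linarith
      rw [← Finset.sum_mul, ← hu 0] at h1
      linarith
    rw [hsp (fun a => p 0 a * Y (s - (a : ℕ)))]
    have h1 : (p 0 (e 0) - u 0) * Y (s - (e 0 : ℕ)) ≤ (p 0 (e 0) - u 0) * B0 :=
      mul_le_mul_of_nonneg_left (hYle _) (by linarith [hue 0])
    have h2 : (1 - 2 * u 0) * B0 + 2 * u 0 * B1 =
        α + γ * z ^ g * ∏ i : Fin (N + 1), (1 - 2 * u i * (1 - z)) := by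
      rw [Fin.prod_univ_succ, ← hPi0, hB0, hB1, pow_succ]
      ring
    rw [← h2]
    have h3 : ∑ a ∈ Finset.univ.filter (fun a => a < e 0), p 0 a = 1 - p 0 (e 0) - u 0 := by
      linarith
    rw [h3] at hlow
    beta_reduce
    nlinarith

end Pool.Agent.H87.PW
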