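import Mathlib
import Pool.Agent.H87.LL.Main

/-!
# Counts of a natural number valued function and its entropy
-/

set_option autoImplicit false
set_option linter.unusedSectionVars false

namespace Pool.Agent.H87.PW

open Finset Real
open Pool.Agent.H87.LL
open scoped BigOperators

variable {ι : Type*}

/-- The number of elements with value at least `v`. -/
noncomputable def cn (R : Finset ι) (V : ι → ℕ) (v : ℕ) : ℝ := ((R.filter fun r => v ≤ V r).card : ℝ)

/-- The first halving. -/
noncomputable def hv (R : Finset ι) (V : ι → ℕ) : ℕ := sInf {e | 2 * cn R V (e + 1) < cn R V e}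

/-- The entropy of the upward deviations. -/
noncomputable def rwd (s : ℝ) (R : Finset ι) (V : ι → ℕ) : ℝ :=
  cn R V (hv R V + 1) * (log (cn R V (hv R V) / cn R V (hv R V + 1)) - s)

/-- The entropy of `V`, times the number of elements. -/
noncomputable def TH (R : Finset ι) (V : ι → ℕ) (F : ℕ) : ℝ :=
  ∑ v ∈ Finset.Ico 0 F, cn R V v * Real.binEntropy (cn R V (v + 1) / cn R V v)

/-- The cost of `V`. -/
noncomputable def CC (R : Finset ι) (V : ι → ℕ) (F : ℕ) : ℝ :=
  ∑ v ∈ Finset.range F, cn R V v * gf (cn R V (v + 1) / cn R V v)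

theorem cn_nonneg (R : Finset ι) (V : ι → ℕ) (v : ℕ) : 0 ≤ cn R V v := Nat.cast_nonneg _

theorem cn_anti (R : Finset ι) (V : ι → ℕ) : Antitone (cn R V) := by
  intro a b hab
  unfold cn
  have : (R.filter fun r => b ≤ V r).card ≤ (R.filter fun r => a ≤ V r).card := by
    apply Finset.card_le_card
    intro r hr
    obtain ⟨h1, h2⟩ := Finset.mem_filter.1 hr
    exact Finset.mem_filter.2 ⟨h1, hab.trans h2⟩
  exact_mod_cast this

theorem cn_zero (R : Finset ι) (V : ι → ℕ) : cn R V 0 = R.card := by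
  unfold cn
  simp

theorem cn_lvl (R : Finset ι) (V : ι → ℕ) (v : ℕ) :
    cn R V v = ((R.filter fun r => V r = v).card : ℝ) + cn R V (v + 1) := by
  classical
  unfold cn
  have h1 : R.filter (fun r => v ≤ V r) =
      (R.filter fun r => V r = v) ∪ (R.filter fun r => v + 1 ≤ V r) := by
    ext r
    simp only [Finset.mem_filter, Finset.mem_union]
    constructor
    · rintro ⟨a, b⟩
      rcases b.eq_or_lt with h | h
      · exact Or.inl ⟨a, h.symm⟩
      · exact Or.inr ⟨a, h⟩
    · rintro (⟨a, b⟩ | ⟨a, b⟩)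
      · exact ⟨a, b.ge⟩
      · exact ⟨a, by omega⟩
  have h2 : Disjoint (R.filter fun r => V r = v) (R.filter fun r => v + 1 ≤ V r) := by
    rw [Finset.disjoint_filter]
    intro r _ h1 h2
    omega
  rw [h1, Finset.card_union_of_disjoint h2]
  push_cast
  ring

theorem cn_top (R : Finset ι) (V : ι → ℕ) (F : ℕ) (hF : ∀ r ∈ R, V r < F) : cn R V F = 0 := by
  unfold cn
  rw [Nat.cast_eq_zero, Finset.card_eq_zero, Finset.filter_eq_empty_iff]
  intro r hr h
  have := hF r hr
  omega

theorem hv_spec (R : Finset ι) (V : ι → ℕ) (hR : R.Nonempty) (F : ℕ) (hF : ∀ r ∈ R, V r < F) :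
    2 * cn R V (hv R V + 1) < cn R V (hv R V) ∧
      (∀ v < hv R V, cn R V v ≤ 2 * cn R V (v + 1)) ∧ hv R V < F := by
  have hF0 := cn_top R V F hF
  have h0 : 0 < cn R V 0 := by
    rw [cn_zero]
    exact_mod_cast hR.card_pos
  obtain ⟨e, -, -, he, -⟩ := exists_half (cn R V) (cn_nonneg R V) h0 F hF0
  have hne : {e | 2 * cn R V (e + 1) < cn R V e}.Nonempty := ⟨e, he⟩
  have h1 : 2 * cn R V (hv R V + 1) < cn R V (hv R V) := Nat.sInf_mem hne
  refine ⟨h1, fun v hv' => ?_, ?_⟩
  · have := Nat.notMem_of_lt_sInf hv'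
    simpa using this
  · by_contra h
    push Not at h
    have h2 := cn_anti R V h
    rw [hF0] at h2
    have h3 := cn_nonneg R V (hv R V + 1)
    linarith

theorem sum_cn (R : Finset ι) (V : ι → ℕ) (a b : ℕ) (hab : a ≤ b) :
    ∑ v ∈ Finset.Ico a b, ((R.filter fun r => V r = v).card : ℝ) = cn R V a - cn R V b := by
  rw [← tele (cn R V) a b hab]
  refine Finset.sum_congr rfl fun v _ => ?_
  rw [cn_lvl R V v]
  ring

/-- The entropy of the value. -/
theorem ent_le (s : ℝ) (hs : 0 ≤ s) (R : Finset ι) (V : ι → ℕ) (hR : R.Nonempty) (F : ℕ)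
    (hF : ∀ r ∈ R, V r < F) : TH R V F ≤ (3 + s) * CC R V F + rwd s R V := by
  obtain ⟨h1, h2, heF⟩ := hv_spec R V hR F hF
  have hF0 := cn_top R V F hF
  unfold TH CC rwd
  set e := hv R V with he
  have hne1 := cn_nonneg R V (e + 1)
  have hne : 0 < cn R V e := by linarith
  have hanti := cn_anti R V
  have hn0 := cn_nonneg R V
  have hgn : ∀ v, 0 ≤ cn R V v * gf (cn R V (v + 1) / cn R V v) :=
    gf_term_nonneg _ hanti hn0
  have hsplit : ∀ f : ℕ → ℝ, ∑ v ∈ Finset.Ico 0 F, f v =
      ∑ v ∈ Finset.Ico 0 e, f v + (f e + ∑ v ∈ Finset.Ico (e + 1) F, f v) := by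
    intro f
    rw [← Finset.sum_Ico_consecutive _ (Nat.zero_le e) heF.le,
      Finset.sum_eq_sum_Ico_succ_bot heF]
  rw [hsplit, Finset.range_eq_Ico, hsplit]
  have hlow : ∑ v ∈ Finset.Ico 0 e, cn R V v * Real.binEntropy (cn R V (v + 1) / cn R V v) =
      ∑ v ∈ Finset.Ico 0 e, cn R V v * gf (cn R V (v + 1) / cn R V v) := by
    refine Finset.sum_congr rfl fun v hv' => ?_
    have h3 := h2 v (Finset.mem_Ico.1 hv').2
    have h4 : cn R V e ≤ cn R V v := hanti (Finset.mem_Ico.1 hv').2.le
    have h5 : 0 < cn R V v := by linarith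
    unfold gf
    rw [if_neg]
    rw [not_lt, le_div_iff₀ h5]
    linarith
  have htail := ent_tail (cn R V) hanti hn0 F (F - (e + 1)) (e + 1) (by omega) hF0
  have hθ2 : cn R V (e + 1) / cn R V e < 1 / 2 := by
    rw [div_lt_iff₀ hne]
    linarith
  have hge : cn R V e * gf (cn R V (e + 1) / cn R V e) = cn R V (e + 1) := by
    unfold gf
    rw [if_pos hθ2]
    field_simp
  have hmid : cn R V e * Real.binEntropy (cn R V (e + 1) / cn R V e) ≤
      cn R V (e + 1) * log (cn R V e / cn R V (e + 1)) + cn R V (e + 1) := by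
    have h3 := bin_le (cn R V (e + 1) / cn R V e) (by linarith)
    have h4 := mul_le_mul_of_nonneg_left h3 hne.le
    refine h4.trans (le_of_eq ?_)
    rw [← Real.log_inv, inv_div]
    field_simp
  have hL := Real.log_two_lt_d9
  have hlow0 : 0 ≤ ∑ v ∈ Finset.Ico 0 e, cn R V v * gf (cn R V (v + 1) / cn R V v) :=
    Finset.sum_nonneg fun v _ => hgn v
  have hhigh0 : 0 ≤ ∑ v ∈ Finset.Ico (e + 1) F,
      cn R V v * gf (cn R V (v + 1) / cn R V v) :=
    Finset.sum_nonneg fun v _ => hgn v
  rw [hlow, hge]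
  set a := ∑ v ∈ Finset.Ico 0 e, cn R V v * gf (cn R V (v + 1) / cn R V v)
  set b := ∑ v ∈ Finset.Ico (e + 1) F, cn R V v * gf (cn R V (v + 1) / cn R V v)
  set m := cn R V (e + 1)
  have h5 : 0 ≤ s * a := mul_nonneg hs hlow0
  have h6 : 0 ≤ s * b := mul_nonneg hs hhigh0
  have h7 : 2 * log 2 * m ≤ 2 * m := by nlinarith
  nlinarith

/-- The entropy by levels. -/
theorem TH_eq (R : Finset ι) (V : ι → ℕ) (F : ℕ) (hF : ∀ r ∈ R, V r < F) :
    TH R V F = (R.card : ℝ) * log R.card -
      ∑ v ∈ Finset.range F, ((R.filter fun r => V r = v).card : ℝ) *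
        log ((R.filter fun r => V r = v).card : ℝ) := by
  have htele := tele_ent (cn R V) (cn_anti R V) (cn_nonneg R V) 0 F (Nat.zero_le _)
  rw [cn_top R V F hF, Real.log_zero, mul_zero, sub_zero, cn_zero] at htele
  unfold TH
  rw [htele, Finset.range_eq_Ico]
  congr 1
  refine Finset.sum_congr rfl fun v _ => ?_
  have : cn R V v - cn R V (v + 1) = ((R.filter fun r => V r = v).card : ℝ) := by
    rw [cn_lvl R V v]
    ring
  rw [this]

/-- The entropy by elements. -/
theorem TH_elem (R : Finset ι) (V : ι → ℕ) (F : ℕ) (hF : ∀ r ∈ R, V r < F) :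
    ∑ r ∈ R, -log (((R.filter fun r' => V r' = V r).card : ℝ) / R.card) = TH R V F := by
  rcases R.eq_empty_or_nonempty with rfl | hR
  · unfold TH cn
    simp
  have hRc : (0 : ℝ) < R.card := by exact_mod_cast hR.card_pos
  rw [TH_eq R V F hF]
  have h1 : ∀ r ∈ R, -log (((R.filter fun r' => V r' = V r).card : ℝ) / R.card) =
      log R.card - log ((R.filter fun r' => V r' = V r).card : ℝ) := by
    intro r hr
    have h2 : (R.filter fun r' => V r' = V r).Nonempty := ⟨r, Finset.mem_filter.2 ⟨hr, rfl⟩⟩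
    have h3 : (0 : ℝ) < (R.filter fun r' => V r' = V r).card := by exact_mod_cast h2.card_pos
    rw [Real.log_div h3.ne' hRc.ne']
    ring
  rw [Finset.sum_congr rfl h1, Finset.sum_sub_distrib, Finset.sum_const, nsmul_eq_mul]
  congr 1
  rw [← Finset.sum_fiberwise_of_maps_to (s := R) (t := Finset.range F) (g := fun r => V r)
    (fun r hr => Finset.mem_range.2 (hF r hr))]
  refine Finset.sum_congr rfl fun v _ => ?_
  rw [← nsmul_eq_mul, ← Finset.sum_const]
  refine Finset.sum_congr rfl fun r hr => ?_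
  rw [(Finset.mem_filter.1 hr).2]

/-- Gibbs' inequality for the entropy of `V`. -/
theorem gibbsV {κ : Type*} [DecidableEq κ] (R : Finset ι) (hR : R.Nonempty) (V : ι → κ)
    (w : κ → ℝ) (hw : ∀ r ∈ R, 0 < w (V r)) (Z : ℝ) (hZ : 0 < Z)
    (hsum : ∑ v ∈ R.image V, w v ≤ Z) :
    ∑ r ∈ R, (log R.card - log ((R.filter fun r' => V r' = V r).card : ℝ)) ≤
      -∑ r ∈ R, log (w (V r)) + R.card * log Z := by
  have hRc : (0 : ℝ) < R.card := by exact_mod_cast hR.card_pos
  have h1 : ∀ r ∈ R, log (w (V r)) - log Z + (log R.card -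
      log (R.filter fun r' => V r' = V r).card) ≤
      w (V r) / Z * R.card / (R.filter fun r' => V r' = V r).card - 1 := by
    intro r hr
    have h2 := hw r hr
    have h3' : (R.filter fun r' => V r' = V r).Nonempty :=
      ⟨r, Finset.mem_filter.2 ⟨hr, rfl⟩⟩
    have h3 : (0 : ℝ) < (R.filter fun r' => V r' = V r).card := by
      exact_mod_cast h3'.card_pos
    have h4 := Real.log_le_sub_one_of_pos
      (show 0 < w (V r) / Z * R.card / (R.filter fun r' => V r' = V r).card by positivity)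
    rw [Real.log_div (by positivity) h3.ne', Real.log_mul (by positivity) hRc.ne',
      Real.log_div h2.ne' hZ.ne'] at h4
    linarith
  have h2 := Finset.sum_le_sum h1
  have h3 : ∑ r ∈ R, (w (V r) / Z * R.card / (R.filter fun r' => V r' = V r).card - 1) ≤ 0 := by
    rw [Finset.sum_sub_distrib, Finset.sum_const, nsmul_eq_mul, mul_one]
    have h4 := Finset.sum_comp (s := R)
      (fun v => w v / Z * R.card / (R.filter fun r' => V r' = v).card) V
    rw [h4]
    have h5 : ∑ v ∈ R.image V, (R.filter fun a => V a = v).card •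
        (w v / Z * (R.card : ℝ) / (R.filter fun r' => V r' = v).card) =
        ∑ v ∈ R.image V, w v / Z * R.card := by
      refine Finset.sum_congr rfl fun v hv' => ?_
      obtain ⟨r, hr, hrv⟩ := Finset.mem_image.1 hv'
      have h3' : (R.filter fun r' => V r' = v).Nonempty :=
        ⟨r, Finset.mem_filter.2 ⟨hr, hrv⟩⟩
      have h3 : (0 : ℝ) < (R.filter fun r' => V r' = v).card := by
        exact_mod_cast h3'.card_pos
      rw [nsmul_eq_mul]
      field_simp
    rw [h5, ← Finset.sum_mul, ← Finset.sum_div]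
    have h6 : (∑ v ∈ R.image V, w v) / Z ≤ 1 := by
      rw [div_le_one hZ]
      exact hsum
    nlinarith
  rw [Finset.sum_add_distrib, Finset.sum_sub_distrib, Finset.sum_const, nsmul_eq_mul] at h2
  linarith

end Pool.Agent.H87.PW
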