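import Mathlib

/-!
# Rare upward deviations

`p i` are distributions on `{0, …, F - 1}` and `u i` is the mass above `e i`. Multiply the weight of
the points above `e i` by `M`. Then the total weight of the vectors `v` with `∑ v i ≤ ∑ e i` given is
at most one if `∏ (1 + M u i) ≤ 2`: an upward deviation comes with a larger downward deviation.
-/

set_option autoImplicit false

namespace Pool.Agent.H87.PW

open Finset Real
open scoped BigOperators

/-- The total downward deviation. -/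
def dn {F N : ℕ} (e v : Fin N → Fin F) : ℤ := ∑ i, (((e i : ℕ) - (v i : ℕ) : ℕ) : ℤ)

theorem small_sum (F : ℕ) (M : ℝ) (hM : 0 ≤ M) (N : ℕ) :
    ∀ (p : Fin N → Fin F → ℝ) (e : Fin N → Fin F) (u : Fin N → ℝ),
      (∀ i v, 0 ≤ p i v) → (∀ i, ∑ v, p i v = 1) →
      (∀ i, u i = ∑ v ∈ Finset.univ.filter (fun v => e i < v), p i v) → ∀ σ : ℤ,
      ∑ v : Fin N → Fin F, (if ∑ i, (((e i : ℕ) : ℤ) - ((v i : ℕ) : ℤ)) = σ then
        ∏ i, (p i (v i) * (if e i < v i then M else 1)) else 0) ≤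
      ∑ v : Fin N → Fin F, (if dn e v = σ then ∏ i, p i (v i) else 0) +
        (∏ i, (1 + M * u i) - 1) *
          ∑ v : Fin N → Fin F, (if σ < dn e v then ∏ i, p i (v i) else 0) := by
  classical
  induction N with
  | zero =>
    intro p e u _ _ _ σ
    simp [dn]
  | succ N ih =>
    intro p e u hp0 hp1 hu σ
    have hZ := ih (fun i => p i.succ) (fun i => e i.succ) (fun i => u i.succ)
      (fun i v => hp0 _ v) (fun i => hp1 _) (fun i => hu _)
    obtain ⟨Z, hZdef⟩ : ∃ Z : ℤ → ℝ, ∀ s, Z s = ∑ w : Fin N → Fin F,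
      (if ∑ i, (((e i.succ : ℕ) : ℤ) - ((w i : ℕ) : ℤ)) = s then
        ∏ i, (p i.succ (w i) * (if e i.succ < w i then M else 1)) else 0) := ⟨_, fun _ => rfl⟩
    obtain ⟨QD, hQD⟩ : ∃ QD : ℤ → ℝ, ∀ s, QD s = ∑ w : Fin N → Fin F,
      (if dn (fun i => e i.succ) w = s then ∏ i, p i.succ (w i) else 0) := ⟨_, fun _ => rfl⟩
    obtain ⟨QG, hQG⟩ : ∃ QG : ℤ → ℝ, ∀ s, QG s = ∑ w : Fin N → Fin F,
      (if s < dn (fun i => e i.succ) w then ∏ i, p i.succ (w i) else 0) := ⟨_, fun _ => rfl⟩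
    obtain ⟨E, hE⟩ : ∃ E, E = ∏ i : Fin N, (1 + M * u i.succ) - 1 := ⟨_, rfl⟩
    simp only [← hZdef, ← hQD, ← hQG, ← hE] at hZ
    have hu0 : ∀ i, 0 ≤ u i := fun i => by
      rw [hu]
      exact Finset.sum_nonneg fun v _ => hp0 i v
    have hprod : ∀ w : Fin N → Fin F, 0 ≤ ∏ i, p i.succ (w i) := fun w =>
      Finset.prod_nonneg fun i _ => hp0 _ _
    have hE0 : 0 ≤ E := by
      rw [hE, sub_nonneg]
      calc (1 : ℝ) = ∏ _i : Fin N, (1 : ℝ) := by simp
        _ ≤ ∏ i : Fin N, (1 + M * u i.succ) := by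
          refine Finset.prod_le_prod (fun _ _ => zero_le_one) fun i _ => ?_
          have := mul_nonneg hM (hu0 i.succ)
          linarith
    have hQG0 : ∀ s, 0 ≤ QG s := fun s => by
      rw [hQG]
      exact Finset.sum_nonneg fun w _ => by
        split_ifs
        · exact hprod w
        · exact le_refl _
    have hQD0 : ∀ s, 0 ≤ QD s := fun s => by
      rw [hQD]
      exact Finset.sum_nonneg fun w _ => by
        split_ifs
        · exact hprod w
        · exact le_refl _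
    have hQGanti : ∀ s s', s ≤ s' → QG s' ≤ QG s := fun s s' h => by
      rw [hQG, hQG]
      refine Finset.sum_le_sum fun w _ => ?_
      by_cases h1 : s' < dn (fun i => e i.succ) w
      · rw [if_pos h1, if_pos (lt_of_le_of_lt h h1)]
      · rw [if_neg h1]
        split_ifs
        · exact hprod w
        · exact le_refl _
    have hQDG : ∀ s s', s < s' → QD s' + QG s' ≤ QG s := fun s s' h => by
      rw [hQG, hQG, hQD, ← Finset.sum_add_distrib]
      refine Finset.sum_le_sum fun w _ => ?_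
      rcases lt_trichotomy (dn (fun i => e i.succ) w) s' with h1 | h1 | h1
      · rw [if_neg h1.ne, if_neg (not_lt.2 h1.le)]
        split_ifs
        · have := hprod w
          linarith
        · linarith
      · rw [if_pos h1, if_neg (by rw [h1]; exact lt_irrefl _), if_pos (by rw [h1]; exact h)]
        linarith
      · rw [if_neg h1.ne', if_pos h1, if_pos (h.trans h1)]
        linarith
    -- the recursions
    have rZ : ∑ v : Fin (N + 1) → Fin F, (if ∑ i, (((e i : ℕ) : ℤ) - ((v i : ℕ) : ℤ)) = σ then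
        ∏ i, (p i (v i) * (if e i < v i then M else 1)) else 0) =
        ∑ a : Fin F, (p 0 a * (if e 0 < a then M else 1)) *
          Z (σ - (((e 0 : ℕ) : ℤ) - ((a : ℕ) : ℤ))) := by
      rw [← (Fin.consEquiv (fun _ : Fin (N + 1) => Fin F)).sum_comp, Fintype.sum_prod_type]
      refine Finset.sum_congr rfl fun a _ => ?_
      rw [hZdef, Finset.mul_sum]
      refine Finset.sum_congr rfl fun w _ => ?_
      simp only [Fin.consEquiv_apply, Fin.prod_univ_succ, Fin.cons_zero, Fin.cons_succ,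
        Fin.sum_univ_succ]
      have e1 : (((e 0 : ℕ) : ℤ) - ((a : ℕ) : ℤ) +
          ∑ i : Fin N, (((e i.succ : ℕ) : ℤ) - ((w i : ℕ) : ℤ)) = σ) ↔
          (∑ i : Fin N, (((e i.succ : ℕ) : ℤ) - ((w i : ℕ) : ℤ)) =
            σ - (((e 0 : ℕ) : ℤ) - ((a : ℕ) : ℤ))) := by
        constructor <;> intro h <;> linarith
      simp only [e1]
      split_ifs <;> ring
    have rD : ∑ v : Fin (N + 1) → Fin F, (if dn e v = σ then ∏ i, p i (v i) else 0) =
        ∑ a : Fin F, p 0 a * QD (σ - (((e 0 : ℕ) - (a : ℕ) : ℕ) : ℤ)) := by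
      rw [← (Fin.consEquiv (fun _ : Fin (N + 1) => Fin F)).sum_comp, Fintype.sum_prod_type]
      refine Finset.sum_congr rfl fun a _ => ?_
      rw [hQD, Finset.mul_sum]
      refine Finset.sum_congr rfl fun w _ => ?_
      simp only [dn, Fin.consEquiv_apply, Fin.prod_univ_succ, Fin.cons_zero, Fin.cons_succ,
        Fin.sum_univ_succ]
      have e1 : ((((e 0 : ℕ) - (a : ℕ) : ℕ) : ℤ) +
          ∑ i : Fin N, (((e i.succ : ℕ) - (w i : ℕ) : ℕ) : ℤ) = σ) ↔
          (∑ i : Fin N, (((e i.succ : ℕ) - (w i : ℕ) : ℕ) : ℤ) =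
            σ - (((e 0 : ℕ) - (a : ℕ) : ℕ) : ℤ)) := by
        constructor <;> intro h <;> linarith
      simp only [e1]
      split_ifs <;> ring
    have rG : ∑ v : Fin (N + 1) → Fin F, (if σ < dn e v then ∏ i, p i (v i) else 0) =
        ∑ a : Fin F, p 0 a * QG (σ - (((e 0 : ℕ) - (a : ℕ) : ℕ) : ℤ)) := by
      rw [← (Fin.consEquiv (fun _ : Fin (N + 1) => Fin F)).sum_comp, Fintype.sum_prod_type]
      refine Finset.sum_congr rfl fun a _ => ?_
      rw [hQG, Finset.mul_sum]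
      refine Finset.sum_congr rfl fun w _ => ?_
      simp only [dn, Fin.consEquiv_apply, Fin.prod_univ_succ, Fin.cons_zero, Fin.cons_succ,
        Fin.sum_univ_succ]
      have e1 : (σ < (((e 0 : ℕ) - (a : ℕ) : ℕ) : ℤ) +
          ∑ i : Fin N, (((e i.succ : ℕ) - (w i : ℕ) : ℕ) : ℤ)) ↔
          (σ - (((e 0 : ℕ) - (a : ℕ) : ℕ) : ℤ) <
            ∑ i : Fin N, (((e i.succ : ℕ) - (w i : ℕ) : ℕ) : ℤ)) := by
        constructor <;> intro h <;> linarith
      simp only [e1]
      split_ifs <;> ring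
    rw [rZ, rD, rG, Fin.prod_univ_succ]
    have hprodE : (1 + M * u 0) * ∏ i : Fin N, (1 + M * u i.succ) - 1 =
        E + M * u 0 * (1 + E) := by
      rw [hE]
      ring
    rw [hprodE]
    -- pointwise bound
    have hpt : ∀ a : Fin F, (p 0 a * (if e 0 < a then M else 1)) *
          Z (σ - (((e 0 : ℕ) : ℤ) - ((a : ℕ) : ℤ))) ≤
        p 0 a * QD (σ - (((e 0 : ℕ) - (a : ℕ) : ℕ) : ℤ)) +
          E * (p 0 a * QG (σ - (((e 0 : ℕ) - (a : ℕ) : ℕ) : ℤ))) +
          (if e 0 < a then p 0 a * (M * (1 + E) * QG σ) else 0) := by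
      intro a
      by_cases ha : e 0 < a
      · have ha' : ((e 0 : Fin F) : ℕ) < (a : ℕ) := ha
        rw [if_pos ha, if_pos ha]
        have h0 : (((e 0 : ℕ) - (a : ℕ) : ℕ) : ℤ) = 0 := by
          rw [Nat.sub_eq_zero_of_le ha'.le]
          rfl
        rw [h0, sub_zero]
        have h1 := hZ (σ - (((e 0 : ℕ) : ℤ) - ((a : ℕ) : ℤ)))
        have hlt : σ < σ - (((e 0 : ℕ) : ℤ) - ((a : ℕ) : ℤ)) := by
          have : ((e 0 : ℕ) : ℤ) < ((a : ℕ) : ℤ) := by exact_mod_cast ha'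
          linarith
        have h2 := hQDG σ _ hlt
        have h3 := hQG0 (σ - (((e 0 : ℕ) : ℤ) - ((a : ℕ) : ℤ)))
        have h3' := hQD0 (σ - (((e 0 : ℕ) : ℤ) - ((a : ℕ) : ℤ)))
        have h4 : Z (σ - (((e 0 : ℕ) : ℤ) - ((a : ℕ) : ℤ))) ≤ (1 + E) * QG σ := by
          have h5 : E * QG (σ - (((e 0 : ℕ) : ℤ) - ((a : ℕ) : ℤ))) ≤ E * QG σ :=
            mul_le_mul_of_nonneg_left (hQGanti _ _ hlt.le) hE0
          linarith
        have h5 : p 0 a * M * Z (σ - (((e 0 : ℕ) : ℤ) - ((a : ℕ) : ℤ))) ≤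
            p 0 a * M * ((1 + E) * QG σ) :=
          mul_le_mul_of_nonneg_left h4 (mul_nonneg (hp0 0 a) hM)
        have h6 : 0 ≤ p 0 a * QD σ := mul_nonneg (hp0 0 a) (hQD0 σ)
        have h7 : 0 ≤ E * (p 0 a * QG σ) := mul_nonneg hE0 (mul_nonneg (hp0 0 a) (hQG0 σ))
        nlinarith
      · rw [if_neg ha, if_neg ha, mul_one, add_zero]
        have ha' : (a : ℕ) ≤ ((e 0 : Fin F) : ℕ) := not_lt.1 ha
        rw [Nat.cast_sub ha']
        have h1 := mul_le_mul_of_nonneg_left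
          (hZ (σ - (((e 0 : ℕ) : ℤ) - ((a : ℕ) : ℤ)))) (hp0 0 a)
        refine h1.trans (le_of_eq ?_)
        ring
    refine (Finset.sum_le_sum fun a _ => hpt a).trans ?_
    rw [Finset.sum_add_distrib, Finset.sum_add_distrib, ← Finset.mul_sum, ← Finset.sum_filter,
      ← Finset.sum_mul, ← hu 0]
    have h1 : QG σ ≤ ∑ a : Fin F, p 0 a * QG (σ - (((e 0 : ℕ) - (a : ℕ) : ℕ) : ℤ)) := by
      calc QG σ = ∑ a : Fin F, p 0 a * QG σ := by rw [← Finset.sum_mul, hp1 0, one_mul]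
        _ ≤ _ := by
          refine Finset.sum_le_sum fun a _ => mul_le_mul_of_nonneg_left ?_ (hp0 0 a)
          apply hQGanti
          have : (0 : ℤ) ≤ (((e 0 : ℕ) - (a : ℕ) : ℕ) : ℤ) := Int.natCast_nonneg _
          linarith
    have h2 : u 0 * (M * (1 + E) * QG σ) ≤ M * u 0 * (1 + E) *
        ∑ a : Fin F, p 0 a * QG (σ - (((e 0 : ℕ) - (a : ℕ) : ℕ) : ℤ)) := by
      have h3 : 0 ≤ M * u 0 * (1 + E) := mul_nonneg (mul_nonneg hM (hu0 0)) (by linarith)
      have h4 := mul_le_mul_of_nonneg_left h1 h3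
      linarith
    linarith

theorem full_mass (F N : ℕ) (p : Fin N → Fin F → ℝ) (hp1 : ∀ i, ∑ v, p i v = 1) :
    ∑ v : Fin N → Fin F, ∏ i, p i (v i) = 1 := by
  have h := Finset.prod_univ_sum (fun _ : Fin N => (Finset.univ : Finset (Fin F))) p
  rw [Finset.prod_congr rfl (fun i _ => hp1 i), Finset.prod_const_one] at h
  rw [h]
  refine Finset.sum_congr ?_ fun _ _ => rfl
  ext v
  simp

/-- The total weight is at most one. -/
theorem small (F : ℕ) (M : ℝ) (hM : 0 ≤ M) (N : ℕ) (p : Fin N → Fin F → ℝ)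
    (e : Fin N → Fin F) (u : Fin N → ℝ) (hp0 : ∀ i v, 0 ≤ p i v) (hp1 : ∀ i, ∑ v, p i v = 1)
    (hu : ∀ i, u i = ∑ v ∈ Finset.univ.filter (fun v => e i < v), p i v)
    (hMu : M * ∑ i, u i ≤ log 2) (σ : ℤ) :
    ∑ v : Fin N → Fin F, (if ∑ i, (((e i : ℕ) : ℤ) - ((v i : ℕ) : ℤ)) = σ then
        ∏ i, (p i (v i) * (if e i < v i then M else 1)) else 0) ≤ 1 := by
  classical
  refine (small_sum F M hM N p e u hp0 hp1 hu σ).trans ?_
  have hu0 : ∀ i, 0 ≤ u i := fun i => by
    rw [hu]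
    exact Finset.sum_nonneg fun v _ => hp0 i v
  have hE : ∏ i, (1 + M * u i) ≤ 2 := by
    calc ∏ i, (1 + M * u i) ≤ ∏ i, Real.exp (M * u i) := by
          refine Finset.prod_le_prod (fun i _ => ?_) fun i _ => ?_
          · have := mul_nonneg hM (hu0 i)
            linarith
          · have := Real.add_one_le_exp (M * u i)
            linarith
      _ = Real.exp (M * ∑ i, u i) := by rw [← Real.exp_sum, Finset.mul_sum]
      _ ≤ Real.exp (log 2) := Real.exp_le_exp.2 hMu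
      _ = 2 := Real.exp_log (by norm_num)
  have hprod : ∀ v : Fin N → Fin F, 0 ≤ ∏ i, p i (v i) := fun w =>
    Finset.prod_nonneg fun i _ => hp0 _ _
  have hG0 : 0 ≤ ∑ v : Fin N → Fin F, (if σ < dn e v then ∏ i, p i (v i) else 0) :=
    Finset.sum_nonneg fun w _ => by
      split_ifs
      · exact hprod w
      · exact le_refl _
  have h1 : (∏ i, (1 + M * u i) - 1) *
      ∑ v : Fin N → Fin F, (if σ < dn e v then ∏ i, p i (v i) else 0) ≤
      1 * ∑ v : Fin N → Fin F, (if σ < dn e v then ∏ i, p i (v i) else 0) :=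
    mul_le_mul_of_nonneg_right (by linarith) hG0
  have h2 : ∑ v : Fin N → Fin F, (if dn e v = σ then ∏ i, p i (v i) else 0) +
      ∑ v : Fin N → Fin F, (if σ < dn e v then ∏ i, p i (v i) else 0) ≤ 1 := by
    rw [← full_mass F N p hp1, ← Finset.sum_add_distrib]
    refine Finset.sum_le_sum fun v _ => ?_
    have h3 := hprod v
    rcases lt_trichotomy (dn e v) σ with h | h | h
    · rw [if_neg h.ne, if_neg (not_lt.2 h.le)]
      linarith
    · rw [if_pos h, if_neg (by rw [h]; exact lt_irrefl _)]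
      linarith
    · rw [if_neg h.ne', if_pos h]
      linarith
  linarith

end Pool.Agent.H87.PW
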