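import Mathlib
import Pool.Agent.H87.PW.Local
import Pool.Agent.H87.LL.Divisor

/-!
# The main induction with the full entropies of the coordinates
-/

set_option autoImplicit false
set_option linter.unusedSectionVars false

namespace Pool.Agent.H87.PW

open Finset Real
open Pool.Agent.H87.FS (cls va)
open Pool.Agent.H87.LL
open scoped Pointwise BigOperators

variable {ι : Type*}

theorem cn_congr (R : Finset ι) (V V' : ι → ℕ) (h : ∀ r ∈ R, V r = V' r) : cn R V = cn R V' := by
  funext v
  unfold cn
  congr 2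
  refine Finset.filter_congr fun r hr => ?_
  rw [h r hr]

theorem TH_congr (R : Finset ι) (V V' : ι → ℕ) (F : ℕ) (h : ∀ r ∈ R, V r = V' r) :
    TH R V F = TH R V' F := by
  unfold TH
  rw [cn_congr R V V' h]

theorem CC_congr (R : Finset ι) (V V' : ι → ℕ) (F : ℕ) (h : ∀ r ∈ R, V r = V' r) :
    CC R V F = CC R V' F := by
  unfold CC
  rw [cn_congr R V V' h]

/-- Superadditivity for a partition. -/
theorem E1_partition {κ : Type*} [DecidableEq κ] (φ : ι → ℤ) (P : Finset ℤ) (hP : P.Nonempty)
    (key : ι → κ) (T : Finset κ) : ∀ R : Finset ι, (∀ r ∈ R, key r ∈ T) →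
    ∑ x ∈ T, E1 (R.filter fun r => key r = x) φ P ≤ E1 R φ P := by
  classical
  induction T using Finset.induction_on with
  | empty =>
    intro R _
    simpa using E1_nonneg R φ P hP
  | insert x T hx ih =>
    intro R hR
    rw [Finset.sum_insert hx]
    have h1 := ih (R.filter fun r => ¬ key r = x) (by
      intro r hr
      obtain ⟨hr1, hr2⟩ := Finset.mem_filter.1 hr
      exact (Finset.mem_insert.1 (hR r hr1)).resolve_left hr2)
    have h2 := E1_add R φ P hP (fun r => key r = x)
    have h3 : ∑ y ∈ T, E1 ((R.filter fun r => ¬ key r = x).filter fun r => key r = y) φ P =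
        ∑ y ∈ T, E1 (R.filter fun r => key r = y) φ P := by
      refine Finset.sum_congr rfl fun y hy => ?_
      congr 1
      ext r
      simp only [Finset.mem_filter]
      constructor
      · rintro ⟨⟨a, -⟩, b⟩
        exact ⟨a, b⟩
      · rintro ⟨a, b⟩
        refine ⟨⟨a, ?_⟩, b⟩
        rintro rfl
        exact hx (b ▸ hy)
    rw [h3] at h1
    linarith

/-- The partition by all coordinates refines the partition by one. -/
theorem part3 {κ : Type*} [DecidableEq κ] (φ : ι → ℤ) (P : Finset ℤ) (hP : P.Nonempty)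
    (key : ι → κ) (w : ι → ℕ) (u : κ → ℕ) (R : Finset ι) (F : ℕ) (hw : ∀ r ∈ R, w r < F)
    (hu : ∀ r, w r = u (key r)) :
    ∑ v ∈ R.image key, E1 (R.filter fun r => key r = v) φ P ≤
      ∑ f ∈ Finset.range F, E1 (R.filter fun r => w r = f) φ P := by
  classical
  have h1 : ∀ f ∈ Finset.range F, ∑ v ∈ R.image key,
      E1 ((R.filter fun r => w r = f).filter fun r => key r = v) φ P ≤
      E1 (R.filter fun r => w r = f) φ P := by
    intro f _
    refine E1_partition φ P hP key (R.image key) _ fun r hr => ?_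
    exact Finset.mem_image_of_mem key (Finset.mem_filter.1 hr).1
  refine le_trans ?_ (Finset.sum_le_sum h1)
  rw [Finset.sum_comm]
  refine Finset.sum_le_sum fun v hv => ?_
  obtain ⟨r₀, hr₀, hrv⟩ := Finset.mem_image.1 hv
  have h2 : u v ∈ Finset.range F := by
    rw [← hrv, ← hu]
    exact Finset.mem_range.2 (hw r₀ hr₀)
  have h3 := Finset.single_le_sum (f := fun f =>
    E1 ((R.filter fun r => w r = f).filter fun r => key r = v) φ P)
    (fun f _ => E1_nonneg _ _ _ hP) h2
  refine le_trans (le_of_eq ?_) h3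
  congr 1
  ext r
  simp only [Finset.mem_filter]
  constructor
  · rintro ⟨a, b⟩
    exact ⟨⟨a, by rw [hu, b]⟩, b⟩
  · rintro ⟨⟨a, -⟩, b⟩
    exact ⟨a, b⟩

theorem Lg_single (R : Finset ι) (φ : ι → ℤ) :
    Lg R φ {0} = ∑ r ∈ R, log ((R.filter fun r' => φ r' = φ r).card : ℝ) := by
  unfold Lg
  refine Finset.sum_congr rfl fun r _ => ?_
  rw [Finset.sum_singleton, add_zero]
  congr 2
  unfold rep
  congr 1
  ext r'
  simp only [Finset.mem_filter, Finset.mem_singleton, sub_eq_zero]
  constructor
  · rintro ⟨a, b⟩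
    exact ⟨a, b.symm⟩
  · rintro ⟨a, b⟩
    exact ⟨a, b.symm⟩

/-- The chain rule for the entropy of `φ`. -/
theorem E1_chain (R : Finset ι) (φ : ι → ℤ) (q : ℕ) (F : ℕ) (hF : ∀ r ∈ R, va q (φ r) < F) :
    TH R (fun r => va q (φ r)) F +
      ∑ f ∈ Finset.range F, E1 (R.filter fun r => va q (φ r) = f) φ {0} = E1 R φ {0} := by
  classical
  rw [TH_eq R _ F hF]
  have h1 : ∀ f ∈ Finset.range F, E1 (R.filter fun r => va q (φ r) = f) φ {0} =
      ((R.filter fun r => va q (φ r) = f).card : ℝ) *
        log ((R.filter fun r => va q (φ r) = f).card : ℝ) -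
      ∑ r ∈ R.filter (fun r => va q (φ r) = f),
        log ((R.filter fun r' => φ r' = φ r).card : ℝ) := by
    intro f _
    unfold E1
    rw [Lg_single, Finset.card_singleton, Nat.cast_one, div_one]
    congr 1
    refine Finset.sum_congr rfl fun r hr => ?_
    congr 2
    congr 1
    ext r'
    simp only [Finset.mem_filter]
    constructor
    · rintro ⟨⟨a, -⟩, b⟩
      exact ⟨a, b⟩
    · rintro ⟨a, b⟩
      exact ⟨⟨a, by rw [b]; exact (Finset.mem_filter.1 hr).2⟩, b⟩
  rw [Finset.sum_congr rfl h1, Finset.sum_sub_distrib,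
    Finset.sum_fiberwise_of_maps_to (s := R) (t := Finset.range F)
      (g := fun r => va q (φ r)) (fun r hr => Finset.mem_range.2 (hF r hr))
      (f := fun r => log ((R.filter fun r' => φ r' = φ r).card : ℝ))]
  unfold E1
  rw [Lg_single, Finset.card_singleton, Nat.cast_one, div_one]
  ring

theorem mainPW (e : ℝ) (he : 0 < e) (he1 : e ≤ 1) (s : ℝ) (hs : 2 ≤ s) (k : ℕ) (hk : 1 ≤ k)
    (lam : ℝ) (hlam0 : 0 ≤ lam) (hlamN : lam ≤ k) (hlamL : lam ≤ Real.exp (s / 2) * log k)
    (l : List ℕ) :
    (∀ q ∈ l, q.Prime) → ∀ (R : Finset (Fin k → ℤ)) (x : ℤ), (∀ r ∈ R, ∀ i, r i ≠ 0) →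
      (∀ r ∈ R, ∏ i, r i = x) →
      (∀ r ∈ R, ∀ r' ∈ R, (∀ q ∈ l, ∀ i, va q (r i) = va q (r' i)) →
        ∀ i, (r i).natAbs = (r' i).natAbs) →
      (R.card : ℝ) * log R.card ≤
        ∑ i, ((1 - lam / (30 * k)) * E1 R (fun r => r i) {0} +
          lam / (30 * k) * ((3 + s) * (Sf e R (fun r => r i) +
            (l.map (bq e)).sum * R.card))) + k * log 2 * R.card := by
  classical
  have hk0 : (1 : ℝ) ≤ k := by exact_mod_cast hk
  have hkpos : (0 : ℝ) < k := by linarith
  obtain ⟨τ, hτ⟩ : ∃ τ, τ = lam / (30 * k) := ⟨_, rfl⟩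
  have hτ0 : 0 ≤ τ := by rw [hτ]; positivity
  have hτ1 : 0 ≤ 1 - τ := by
    rw [hτ, sub_nonneg, div_le_one (by positivity)]
    linarith
  have h00 : ({0} : Finset ℤ).Nonempty := Finset.singleton_nonempty _
  rw [← hτ]
  induction l with
  | nil =>
    intro _ R x hR0 hx hdet
    have hnn : 0 ≤ ∑ i : Fin k, ((1 - τ) * E1 R (fun r => r i) {0} +
          τ * ((3 + s) * (Sf e R (fun r => r i) + (([] : List ℕ).map (bq e)).sum * R.card))) := by
      refine Finset.sum_nonneg fun i _ => ?_
      have h1 := E1_nonneg R (fun r : Fin k → ℤ => r i) {0} h00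
      have h2 := Sf_nonneg e he R (fun r : Fin k → ℤ => r i)
      simp only [List.map_nil, List.sum_nil, zero_mul, add_zero]
      have h3 := mul_nonneg hτ1 h1
      have h4 := mul_nonneg hτ0 (mul_nonneg (show 0 ≤ 3 + s by linarith) h2)
      linarith
    rcases R.eq_empty_or_nonempty with rfl | hR
    · simp only [Finset.card_empty, Nat.cast_zero, zero_mul, mul_zero, add_zero] at hnn ⊢
      exact hnn
    · obtain ⟨r₀, hr₀⟩ := hR
      have hRc : (0 : ℝ) < R.card := by exact_mod_cast Finset.card_pos.2 ⟨r₀, hr₀⟩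
      have h1 : R ⊆ Fintype.piFinset fun i => ({r₀ i, -r₀ i} : Finset ℤ) := by
        intro r hr
        rw [Fintype.mem_piFinset]
        intro i
        have h2 := hdet r hr r₀ hr₀ (by simp) i
        rcases Int.natAbs_eq_natAbs_iff.1 h2 with h3 | h3
        · simp [h3]
        · simp [h3]
      have h2 : (R.card : ℝ) ≤ 2 ^ k := by
        have h3 := Finset.card_le_card h1
        rw [Fintype.card_piFinset] at h3
        have h4 : ∏ i : Fin k, (({r₀ i, -r₀ i} : Finset ℤ)).card ≤ 2 ^ k := by
          calc ∏ i : Fin k, (({r₀ i, -r₀ i} : Finset ℤ)).card ≤ ∏ _i : Fin k, 2 :=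
                Finset.prod_le_prod' fun i _ => Finset.card_le_two
            _ = 2 ^ k := by simp
        exact_mod_cast h3.trans h4
      have h3 : log R.card ≤ k * log 2 := by
        rw [← Real.log_pow]
        exact Real.log_le_log hRc h2
      nlinarith
  | cons q l ih =>
    intro hl R x hR0 hx hdet
    rcases R.eq_empty_or_nonempty with rfl | hR
    · simp only [Finset.card_empty, Nat.cast_zero, zero_mul, mul_zero, add_zero]
      refine Finset.sum_nonneg fun i _ => ?_
      have h1 := E1_nonneg (∅ : Finset (Fin k → ℤ)) (fun r : Fin k → ℤ => r i) {0} h00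
      have h2 := Sf_nonneg e he (∅ : Finset (Fin k → ℤ)) (fun r : Fin k → ℤ => r i)
      have h3 := mul_nonneg hτ1 h1
      have h4 := mul_nonneg hτ0 (mul_nonneg (show 0 ≤ 3 + s by linarith) h2)
      linarith
    have hRc : (0 : ℝ) < R.card := by exact_mod_cast hR.card_pos
    have hq : q.Prime := hl q (List.mem_cons_self ..)
    obtain ⟨V, hV⟩ : ∃ V : (Fin k → ℤ) → Fin k → ℕ, ∀ r i, V r i = va q (r i) :=
      ⟨fun r i => va q (r i), fun _ _ => rfl⟩
    obtain ⟨F, hVF⟩ : ∃ F : ℕ, ∀ r ∈ R, ∀ i, V r i < F := by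
      refine ⟨(R.sup fun r => Finset.univ.sup fun i => V r i) + 1, ?_⟩
      intro r hr i
      have h1 : V r i ≤ Finset.univ.sup fun i => V r i :=
        Finset.le_sup (f := fun i => V r i) (Finset.mem_univ i)
      have h2 : (Finset.univ.sup fun i => V r i) ≤
          R.sup fun r => Finset.univ.sup fun i => V r i :=
        Finset.le_sup (f := fun r : Fin k → ℤ => Finset.univ.sup fun i => V r i) hr
      omega
    have hVs : ∀ r ∈ R, ∑ i, V r i = va q x := by
      intro r hr
      rw [← hx r hr, ← va_prod k q r (hR0 r hr)]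
      exact Finset.sum_congr rfl fun i _ => hV r i
    have hFpos : 0 < F := by
      obtain ⟨r₀, hr₀⟩ := hR
      exact lt_of_le_of_lt (Nat.zero_le _) (hVF r₀ hr₀ ⟨0, hk⟩)
    obtain ⟨V', hV'⟩ : ∃ V' : (Fin k → ℤ) → Fin k → Fin F, ∀ r ∈ R, ∀ i,
        ((V' r i : Fin F) : ℕ) = V r i := by
      refine ⟨fun r i => if h : V r i < F then ⟨V r i, h⟩ else ⟨0, hFpos⟩, ?_⟩
      intro r hr i
      simp only [dif_pos (hVF r hr i)]
    have hloc := local_ineq k hk F R hR V' ((va q x : ℕ) : ℤ) (by
      intro r hr
      rw [← hVs r hr]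
      push_cast
      exact Finset.sum_congr rfl fun i _ => by rw [hV' r hr i]) s hs lam hlam0 hlamN hlamL
    rw [← hτ] at hloc
    have hfilt : ∀ r ∈ R, (R.filter fun r' => V' r' = V' r) = R.filter fun r' => V r' = V r := by
      intro r hr
      refine Finset.filter_congr fun r' hr' => ?_
      constructor
      · intro h
        funext i
        rw [← hV' r hr i, ← hV' r' hr' i, h]
      · intro h
        funext i
        apply Fin.ext
        rw [hV' r hr i, hV' r' hr' i, h]
    have hloc2 : ∑ r ∈ R, (log R.card - log ((R.filter fun r' => V r' = V r).card : ℝ)) ≤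
        ∑ i, ((1 - τ) * TH R (fun r => va q (r i)) F +
          τ * ((3 + s) * CC R (fun r => va q (r i)) F)) := by
      refine le_trans (le_of_eq ?_) (hloc.trans (le_of_eq ?_))
      · exact Finset.sum_congr rfl fun r hr => by rw [hfilt r hr]
      · refine Finset.sum_congr rfl fun i _ => ?_
        rw [TH_congr R (fun r => (V' r i : ℕ)) (fun r => va q (r i)) F
            (fun r hr => by rw [hV' r hr i, hV]),
          CC_congr R (fun r => (V' r i : ℕ)) (fun r => va q (r i)) F
            (fun r hr => by rw [hV' r hr i, hV])]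
    have hblock : ∀ i, _ := fun i => block e he he1 q hq (bq e q) (bq_spec e q) R
      (fun r : Fin k → ℤ => r i) (fun r hr => hR0 r hr i) F
    obtain ⟨T, hT⟩ : ∃ T, T = R.image V := ⟨_, rfl⟩
    have hva : ∀ i, ∀ r ∈ R, va q (r i) < F := fun i r hr => by
      rw [← hV]
      exact hVF r hr i
    -- the partition
    have hpart : ∀ i, ∑ v ∈ T, Sf e (R.filter fun r => V r = v) (fun r => r i) ≤
        ∑ f ∈ Finset.range F, Sf e (R.filter fun r => va q (r i) = f) (fun r => r i) := by
      intro i
      rw [hT]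
      exact part2 e he (fun r : Fin k → ℤ => r i) V (fun r => va q (r i)) (fun v => v i) R F
        (hva i) (fun r => (hV r i).symm)
    have hpartE : ∀ i, ∑ v ∈ T, E1 (R.filter fun r => V r = v) (fun r => r i) {0} ≤
        ∑ f ∈ Finset.range F, E1 (R.filter fun r => va q (r i) = f) (fun r => r i) {0} := by
      intro i
      rw [hT]
      exact part3 (fun r : Fin k → ℤ => r i) {0} h00 V (fun r => va q (r i)) (fun v => v i) R F
        (hva i) (fun r => (hV r i).symm)
    have hcoord : ∀ i, CC R (fun r => va q (r i)) F +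
        ∑ v ∈ T, Sf e (R.filter fun r => V r = v) (fun r => r i) ≤
        Sf e R (fun r => r i) + bq e q * R.card := by
      intro i
      have h1 := hblock i
      have h2 := hpart i
      have h3 := Sf_nonneg e he (R.filter fun r => F ≤ va q (r i)) (fun r : Fin k → ℤ => r i)
      have h4 : 0 ≤ bq e q * ((R.filter fun r => F ≤ va q (r i)).card : ℝ) :=
        mul_nonneg (bq_nonneg e he he1 q) (Nat.cast_nonneg _)
      have h5 : CC R (fun r => va q (r i)) F = ∑ f ∈ Finset.range F,
          ((R.filter fun r => f ≤ va q (r i)).card : ℝ) *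
          gf (((R.filter fun r => f + 1 ≤ va q (r i)).card : ℝ) /
            (R.filter fun r => f ≤ va q (r i)).card) := rfl
      rw [h5]
      linarith
    have hcoordE : ∀ i, TH R (fun r => va q (r i)) F +
        ∑ v ∈ T, E1 (R.filter fun r => V r = v) (fun r => r i) {0} ≤
        E1 R (fun r => r i) {0} := by
      intro i
      have h1 := E1_chain R (fun r : Fin k → ℤ => r i) q F (hva i)
      have h2 := hpartE i
      linarith
    -- the induction hypothesis
    have hih : ∀ v ∈ T, ((R.filter fun r => V r = v).card : ℝ) *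
        log (R.filter fun r => V r = v).card ≤
        ∑ i, ((1 - τ) * E1 (R.filter fun r => V r = v) (fun r => r i) {0} +
          τ * ((3 + s) * (Sf e (R.filter fun r => V r = v) (fun r => r i) +
            (l.map (bq e)).sum * (R.filter fun r => V r = v).card))) +
          k * log 2 * (R.filter fun r => V r = v).card := by
      intro v _
      refine ih (fun q' hq' => hl q' (List.mem_cons_of_mem _ hq')) _ x
        (fun r hr => hR0 r (Finset.mem_filter.1 hr).1)
        (fun r hr => hx r (Finset.mem_filter.1 hr).1) ?_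
      intro r hr r' hr' hrr
      obtain ⟨h1, h2⟩ := Finset.mem_filter.1 hr
      obtain ⟨h3, h4⟩ := Finset.mem_filter.1 hr'
      refine hdet r h1 r' h3 ?_
      intro q' hq' i
      rcases List.mem_cons.1 hq' with h5 | h5
      · rw [h5]
        have := congrFun (h2.trans h4.symm) i
        rwa [hV, hV] at this
      · exact hrr q' h5 i
    have hihs := Finset.sum_le_sum hih
    have hcardT : ∑ v ∈ T, ((R.filter fun r => V r = v).card : ℝ) = R.card := by
      rw [hT]
      exact_mod_cast (Finset.card_eq_sum_card_image V R).symm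
    rw [Finset.sum_add_distrib, Finset.sum_comm, ← Finset.mul_sum, hcardT] at hihs
    have hsplit : ∑ r ∈ R, log ((R.filter fun r' => V r' = V r).card : ℝ) =
        ∑ v ∈ T, ((R.filter fun r => V r = v).card : ℝ) *
          log (R.filter fun r => V r = v).card := by
      have := Finset.sum_comp (s := R)
        (fun v => log ((R.filter fun r' => V r' = v).card : ℝ)) V
      rw [this, hT]
      exact Finset.sum_congr rfl fun v _ => by rw [nsmul_eq_mul]
    rw [Finset.sum_sub_distrib, Finset.sum_const, nsmul_eq_mul, hsplit] at hloc2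
    -- one coordinate
    have hone : ∀ i, ((1 - τ) * TH R (fun r => va q (r i)) F +
          τ * ((3 + s) * CC R (fun r => va q (r i)) F)) +
        ∑ v ∈ T, ((1 - τ) * E1 (R.filter fun r => V r = v) (fun r => r i) {0} +
          τ * ((3 + s) * (Sf e (R.filter fun r => V r = v) (fun r => r i) +
            (l.map (bq e)).sum * (R.filter fun r => V r = v).card))) ≤
        (1 - τ) * E1 R (fun r => r i) {0} +
          τ * ((3 + s) * (Sf e R (fun r => r i) +
            (bq e q + (l.map (bq e)).sum) * R.card)) := by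
      intro i
      have e1 : ∑ v ∈ T, ((1 - τ) * E1 (R.filter fun r => V r = v) (fun r => r i) {0} +
          τ * ((3 + s) * (Sf e (R.filter fun r => V r = v) (fun r => r i) +
            (l.map (bq e)).sum * (R.filter fun r => V r = v).card))) =
          (1 - τ) * ∑ v ∈ T, E1 (R.filter fun r => V r = v) (fun r => r i) {0} +
          τ * ((3 + s) * (∑ v ∈ T, Sf e (R.filter fun r => V r = v) (fun r => r i) +
            (l.map (bq e)).sum * R.card)) := by
        rw [Finset.sum_add_distrib, ← Finset.mul_sum, ← Finset.mul_sum, ← Finset.mul_sum,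
          Finset.sum_add_distrib, ← Finset.mul_sum, hcardT]
      rw [e1]
      have h1 := mul_le_mul_of_nonneg_left (hcoordE i) hτ1
      have h2 := mul_le_mul_of_nonneg_left (hcoord i)
        (mul_nonneg hτ0 (show 0 ≤ 3 + s by linarith))
      nlinarith
    have hones := Finset.sum_le_sum fun i (_ : i ∈ (Finset.univ : Finset (Fin k))) => hone i
    rw [Finset.sum_add_distrib] at hones
    simp only [List.map_cons, List.sum_cons]
    linarith

end Pool.Agent.H87.PW
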