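import Mathlib
import Pool.Agent.H87.PW.Main

/-!
# The pointwise bound
-/

set_option autoImplicit false
set_option linter.unusedSectionVars false

namespace Pool.Agent.H87.PW

open Finset Real
open Pool.Agent.H87.LL
open scoped Pointwise BigOperators

/-- The constant for the small primes. -/
noncomputable def BB (e : ℝ) : ℝ := (2 * Real.exp (10 ^ 8 * (2 / e + 1)) + 1) * log (200 / e)

theorem BB_nonneg (e : ℝ) (he : 0 < e) (he1 : e ≤ 1) : 0 ≤ BB e := by
  unfold BB
  refine mul_nonneg (by positivity) (Real.log_nonneg ?_)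
  rw [le_div_iff₀ he]
  linarith

theorem point_log (e : ℝ) (he : 0 < e) (he1 : e ≤ 1) (s : ℝ) (hs : 2 ≤ s) (k : ℕ) (hk : 1 ≤ k)
    (lam : ℝ) (hlam0 : 0 ≤ lam) (hlamN : lam ≤ k) (hlamL : lam ≤ Real.exp (s / 2) * log k)
    (A P Q : Fin k → Finset ℤ) (hP : ∀ i, (P i).Nonempty) (hQ : ∀ i, (Q i).Nonempty)
    (x : ℤ) (hx : x ≠ 0) (hne : (Fac A x).Nonempty) :
    log (Fac A x).card ≤ ∑ i, ((1 - lam / (30 * k)) * log ((A i).card : ℝ) +
      lam / (30 * k) * ((3 + s) * (16 * (log ((A i + P i).card : ℝ) -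
      log ((P i).card : ℝ)) + (2000 * D2 (P i) (Q i) + e * log ((P i).card : ℝ)) + BB e))) +
      k * log 2 := by
  have hk0 : (1 : ℝ) ≤ k := by exact_mod_cast hk
  obtain ⟨τ, hτ⟩ : ∃ τ, τ = lam / (30 * k) := ⟨_, rfl⟩
  have hτ0 : 0 ≤ τ := by rw [hτ]; positivity
  have hτ1 : 0 ≤ 1 - τ := by
    rw [hτ, sub_nonneg, div_le_one (by positivity)]
    linarith
  set R := Fac A x with hR
  have hRc : (0 : ℝ) < R.card := by exact_mod_cast hne.card_pos
  have hmem : ∀ r ∈ R, (∀ i, r i ∈ A i) ∧ ∏ i, r i = x := by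
    intro r hr
    obtain ⟨h1, h2⟩ := Finset.mem_filter.1 hr
    exact ⟨Fintype.mem_piFinset.1 h1, h2⟩
  have hdvd : ∀ r ∈ R, ∀ i, r i ∣ x := by
    intro r hr i
    rw [← (hmem r hr).2]
    exact Finset.dvd_prod_of_mem r (Finset.mem_univ i)
  have hmain := mainPW e he he1 s hs k hk lam hlam0 hlamN hlamL x.natAbs.primeFactors.toList
    (fun q hq => Nat.prime_of_mem_primeFactors (Finset.mem_toList.1 hq)) R x
    (fun r hr i h0 => hx (by
      have := hdvd r hr i
      rw [h0, zero_dvd_iff] at this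
      exact this))
    (fun r hr => (hmem r hr).2)
    (fun r hr r' hr' h i => natAbs_eq_of_va (r i) (r' i) x hx (hdvd r hr i) (hdvd r' hr' i)
      (fun q hq => h q (Finset.mem_toList.2 hq) i))
  rw [Finset.sum_map_toList, ← hτ] at hmain
  rw [← hτ]
  have hsum : ∑ q ∈ x.natAbs.primeFactors, bq e q ≤ BB e :=
    sum_bq e he he1 x.natAbs.primeFactors
  have hone : ∀ i, (1 - τ) * E1 R (fun r => r i) {0} + τ * ((3 + s) *
      (Sf e R (fun r => r i) + (∑ q ∈ x.natAbs.primeFactors, bq e q) * R.card)) ≤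
      R.card * ((1 - τ) * log ((A i).card : ℝ) + τ * ((3 + s) * (16 *
      (log ((A i + P i).card : ℝ) -
      log ((P i).card : ℝ)) + (2000 * D2 (P i) (Q i) + e * log ((P i).card : ℝ)) + BB e))) := by
    intro i
    have h1 := Sf_le e he R (fun r : Fin k → ℤ => r i) (P i) (Q i) (hP i) (hQ i)
    have h2 := E1_le R (fun r : Fin k → ℤ => r i) (P i) (A i + P i) (hP i)
      (fun r hr p hp => Finset.add_mem_add ((hmem r hr).1 i) hp)
    have h3 := E1_le R (fun r : Fin k → ℤ => r i) {0} (A i) (Finset.singleton_nonempty _)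
      (fun r hr p hp => by
        rw [Finset.mem_singleton.1 hp, add_zero]
        exact (hmem r hr).1 i)
    rw [Finset.card_singleton, Nat.cast_one, Real.log_one, sub_zero] at h3
    unfold psi at h1
    have h4 : Sf e R (fun r => r i) + (∑ q ∈ x.natAbs.primeFactors, bq e q) * R.card ≤
        R.card * (16 * (log ((A i + P i).card : ℝ) -
        log ((P i).card : ℝ)) + (2000 * D2 (P i) (Q i) + e * log ((P i).card : ℝ)) + BB e) := by
      have h5 := mul_le_mul_of_nonneg_right hsum hRc.le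
      linarith
    have h5 := mul_le_mul_of_nonneg_left h3 hτ1
    have h6 := mul_le_mul_of_nonneg_left h4 (mul_nonneg hτ0 (show 0 ≤ 3 + s by linarith))
    nlinarith
  have hones := Finset.sum_le_sum fun i (_ : i ∈ (Finset.univ : Finset (Fin k))) => hone i
  rw [← Finset.mul_sum] at hones
  have hfin : (R.card : ℝ) * log R.card ≤ R.card * (∑ i, ((1 - τ) * log ((A i).card : ℝ) +
      τ * ((3 + s) * (16 * (log ((A i + P i).card : ℝ) -
      log ((P i).card : ℝ)) + (2000 * D2 (P i) (Q i) + e * log ((P i).card : ℝ)) + BB e))) +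
      k * log 2) := by
    rw [mul_add]
    linarith
  exact le_of_mul_le_mul_left hfin hRc

/-- The exponent. -/
noncomputable def lm (s : ℝ) (k : ℕ) : ℝ := min (k : ℝ) (Real.exp (s / 2) * log k)

theorem lm_nonneg (s : ℝ) (k : ℕ) : 0 ≤ lm s k := by
  unfold lm
  exact le_min (Nat.cast_nonneg _) (mul_nonneg (Real.exp_pos _).le (Real.log_natCast_nonneg _))

/-- **The pointwise bound.** -/
theorem point (e : ℝ) (he : 0 < e) (he1 : e ≤ 1) (s : ℝ) (hs : 2 ≤ s) (k : ℕ) (hk : 1 ≤ k)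
    (A P Q : Fin k → Finset ℤ) (hP : ∀ i, (P i).Nonempty) (hQ : ∀ i, (Q i).Nonempty)
    (x : ℤ) (hx : x ≠ 0) :
    ((Fac A x).card : ℝ) ≤ 2 ^ k * ∏ i, (((A i).card : ℝ) ^ (1 - lm s k / (30 * k)) *
      (Real.exp (BB e) * ((P i).card : ℝ) ^ e * (((A i + P i).card : ℝ) / (P i).card) ^ (16 : ℝ) *
        (((P i + Q i).card : ℝ) / √(((P i).card : ℝ) * (Q i).card)) ^ (2000 : ℝ)) ^
        ((3 + s) * (lm s k / (30 * k)))) := by
  rcases (Fac A x).eq_empty_or_nonempty with h0 | hne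
  · rw [h0, Finset.card_empty, Nat.cast_zero]
    positivity
  have hRc : (0 : ℝ) < (Fac A x).card := by exact_mod_cast hne.card_pos
  have hlog := point_log e he he1 s hs k hk (lm s k) (lm_nonneg s k) (min_le_left _ _)
    (min_le_right _ _) A P Q hP hQ x hx hne
  obtain ⟨r, hr⟩ := hne
  have hAne : ∀ i, (A i).Nonempty := fun i =>
    ⟨r i, Fintype.mem_piFinset.1 (Finset.mem_filter.1 hr).1 i⟩
  obtain ⟨τ, hτ⟩ : ∃ τ, τ = lm s k / (30 * k) := ⟨_, rfl⟩
  rw [← hτ] at hlog ⊢
  have h2 : ∀ i, ((A i).card : ℝ) ^ (1 - τ) *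
      (Real.exp (BB e) * ((P i).card : ℝ) ^ e * (((A i + P i).card : ℝ) / (P i).card) ^ (16 : ℝ) *
        (((P i + Q i).card : ℝ) / √(((P i).card : ℝ) * (Q i).card)) ^ (2000 : ℝ)) ^
        ((3 + s) * τ) = Real.exp ((1 - τ) * log ((A i).card : ℝ) +
      τ * ((3 + s) * (16 * (log ((A i + P i).card : ℝ) -
      log ((P i).card : ℝ)) + (2000 * D2 (P i) (Q i) + e * log ((P i).card : ℝ)) + BB e))) := by
    intro i
    have p0 : (0 : ℝ) < (A i).card := by exact_mod_cast (hAne i).card_pos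
    have p1 : (0 : ℝ) < (P i).card := by exact_mod_cast (hP i).card_pos
    have p2 : (0 : ℝ) < (Q i).card := by exact_mod_cast (hQ i).card_pos
    have p3 : (0 : ℝ) < (A i + P i).card := by exact_mod_cast ((hAne i).add (hP i)).card_pos
    have p4 : (0 : ℝ) < (P i + Q i).card := by exact_mod_cast ((hP i).add (hQ i)).card_pos
    have e1 : Real.exp (BB e) * ((P i).card : ℝ) ^ e *
        (((A i + P i).card : ℝ) / (P i).card) ^ (16 : ℝ) *
        (((P i + Q i).card : ℝ) / √(((P i).card : ℝ) * (Q i).card)) ^ (2000 : ℝ) =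
        Real.exp (16 * (log ((A i + P i).card : ℝ) -
        log ((P i).card : ℝ)) + (2000 * D2 (P i) (Q i) + e * log ((P i).card : ℝ)) + BB e) := by
      rw [Real.rpow_def_of_pos p1, Real.rpow_def_of_pos (div_pos p3 p1),
        Real.rpow_def_of_pos (show (0 : ℝ) < ((P i + Q i).card : ℝ) /
          √(((P i).card : ℝ) * (Q i).card) by positivity),
        Real.log_div p3.ne' p1.ne', Real.log_div p4.ne' (by positivity),
        Real.log_sqrt (by positivity), Real.log_mul p1.ne' p2.ne', ← Real.exp_add,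
        ← Real.exp_add, ← Real.exp_add]
      unfold D2
      congr 1
      ring
    rw [e1, Real.rpow_def_of_pos p0, ← Real.exp_mul, ← Real.exp_add]
    congr 1
    ring
  have h3 : (2 : ℝ) ^ k = Real.exp (k * log 2) := by
    rw [Real.exp_nat_mul, Real.exp_log (by norm_num)]
  rw [Finset.prod_congr rfl (fun i _ => h2 i), ← Real.exp_sum, h3, ← Real.exp_add,
    ← Real.exp_log hRc, Real.exp_le_exp, add_comm]
  exact hlog

end Pool.Agent.H87.PW
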