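import Mathlib
import Pool.Agent.H87.LL.Decomp
import Pool.Agent.H87.PW.Point

/-!
# The decomposition: preliminaries
-/

set_option autoImplicit false
set_option linter.unusedSectionVars false

namespace Pool.Agent.H87.PW

open Finset Real
open Pool.Agent.H87.LL
open scoped Pointwise BigOperators
open Pool.Agent.Y359.LE (En sm rep_ne rep_total En_eq En_double exists_level
  energy_le_cube popular En_young' En_le En_pos En_one absorb natlog_le lev)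

/-- Successive extraction of disjoint pieces. -/
theorem iterate' (G PC : Finset ℤ → Prop) (s₀ : ℝ) (hs₀ : 0 < s₀) (A : Finset ℤ)
    (hstep : ∀ B ⊆ A, ¬ G B → ∃ D ⊆ B, PC D ∧ s₀ ≤ D.card) (n : ℕ) :
    ∀ B ⊆ A, B.card = n → ∃ B' ⊆ B, G B' ∧ ∃ 𝒟 : Finset (Finset ℤ),
      (∀ D ∈ 𝒟, PC D ∧ s₀ ≤ D.card ∧ D ⊆ B) ∧ B \ B' ⊆ 𝒟.biUnion id ∧
      ∑ D ∈ 𝒟, D.card ≤ B.card := by
  classical
  induction n using Nat.strong_induction_on with
  | _ n ih =>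
    intro B hBA hn
    by_cases hG : G B
    · exact ⟨B, Finset.Subset.refl _, hG, ∅, by simp, by simp, by simp⟩
    · obtain ⟨D, hDB, hPC, hDs⟩ := hstep B hBA hG
      have hDne : D.Nonempty := by
        rw [← Finset.card_pos]
        have : (0 : ℝ) < D.card := lt_of_lt_of_le hs₀ hDs
        exact_mod_cast this
      have hcard : (B \ D).card + D.card = B.card := Finset.card_sdiff_add_card_eq_card hDB
      have hDpos := hDne.card_pos
      obtain ⟨B', hB', hG', 𝒟, h1, h2, h3⟩ := ih (B \ D).card (by omega) (B \ D)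
        (Finset.sdiff_subset.trans hBA) rfl
      have hDn : D ∉ 𝒟 := by
        intro h
        obtain ⟨a, ha⟩ := hDne
        have := (h1 D h).2.2 ha
        exact (Finset.mem_sdiff.1 this).2 ha
      refine ⟨B', hB'.trans Finset.sdiff_subset, hG', insert D 𝒟, ?_, ?_, ?_⟩
      · intro D' hD'
        rcases Finset.mem_insert.1 hD' with h | h
        · rw [h]
          exact ⟨hPC, hDs, hDB⟩
        · exact ⟨(h1 D' h).1, (h1 D' h).2.1, (h1 D' h).2.2.trans Finset.sdiff_subset⟩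
      · intro a ha
        obtain ⟨ha1, ha2⟩ := Finset.mem_sdiff.1 ha
        rw [Finset.mem_biUnion]
        by_cases haD : a ∈ D
        · exact ⟨D, Finset.mem_insert_self _ _, haD⟩
        · have h4 : a ∈ (B \ D) \ B' := Finset.mem_sdiff.2
            ⟨Finset.mem_sdiff.2 ⟨ha1, haD⟩, ha2⟩
          obtain ⟨D', hD', haD'⟩ := Finset.mem_biUnion.1 (h2 h4)
          exact ⟨D', Finset.mem_insert_of_mem hD', haD'⟩
      · rw [Finset.sum_insert hDn]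
        omega

/-- Factorisations in a union of pieces. -/
theorem fac_union' (k : ℕ) (C : Finset ℤ) (𝒟 : Finset (Finset ℤ)) (hC : C ⊆ 𝒟.biUnion id) (u : ℤ)
    (Y : ℝ) (g : Finset ℤ → ℝ)
    (hY : ∀ δ : Fin k → Finset ℤ, (∀ i, δ i ∈ 𝒟) → ((Fac δ u).card : ℝ) ≤ Y * ∏ i, g (δ i)) :
    ((Fac (fun _ : Fin k => C) u).card : ℝ) ≤ Y * (∑ D ∈ 𝒟, g D) ^ k := by
  classical
  have h1 : Fac (fun _ : Fin k => C) u ⊆
      (Fintype.piFinset fun _ : Fin k => 𝒟).biUnion fun δ => Fac δ u := by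
    intro f hf
    obtain ⟨h2, h3⟩ := Finset.mem_filter.1 hf
    rw [Fintype.mem_piFinset] at h2
    have h4 : ∀ i, ∃ D ∈ 𝒟, f i ∈ D := fun i => by
      obtain ⟨D, hD, hfD⟩ := Finset.mem_biUnion.1 (hC (h2 i))
      exact ⟨D, hD, hfD⟩
    choose δ hδ hfδ using h4
    exact Finset.mem_biUnion.2 ⟨δ, Fintype.mem_piFinset.2 hδ,
      Finset.mem_filter.2 ⟨Fintype.mem_piFinset.2 hfδ, h3⟩⟩
  have h2 : ((Fac (fun _ : Fin k => C) u).card : ℝ) ≤
      ∑ δ ∈ Fintype.piFinset fun _ : Fin k => 𝒟, ((Fac δ u).card : ℝ) := by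
    exact_mod_cast (Finset.card_le_card h1).trans Finset.card_biUnion_le
  refine h2.trans ?_
  calc ∑ δ ∈ Fintype.piFinset fun _ : Fin k => 𝒟, ((Fac δ u).card : ℝ)
      ≤ ∑ δ ∈ Fintype.piFinset fun _ : Fin k => 𝒟, Y * ∏ i, g (δ i) :=
        Finset.sum_le_sum fun δ hδ => hY δ (Fintype.mem_piFinset.1 hδ)
    _ = Y * (∑ D ∈ 𝒟, g D) ^ k := by
        rw [← Finset.mul_sum, ← Finset.prod_univ_sum (fun _ : Fin k => 𝒟) (fun _ D => g D),
          Finset.prod_const, Finset.card_univ, Fintype.card_fin]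

theorem lm_le (s : ℝ) (k : ℕ) : lm s k ≤ k := min_le_left _ _

/-- The error of a piece, constants. -/
theorem a5aux (s δ e M ℓ : ℝ) (hs : 2 ≤ s) (hδ0 : 0 ≤ δ) (he : 0 ≤ e) (hM : 0 ≤ M) (hℓ : 0 ≤ ℓ)
    (hδs : δ * s = 1 / 500000) (heM : e * M * s = 1 / 40) :
    (3 + s) * (16 * (21 * δ * ℓ) + (2000 * (21 * δ * ℓ) + e * (M * ℓ))) ≤ 3 / 10 * ℓ := by
  have b1 : 0 ≤ 16 * (21 * δ * ℓ) + (2000 * (21 * δ * ℓ) + e * (M * ℓ)) := by
    positivity
  have h3s : (3 + s) ≤ 5 / 2 * s := by linarith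
  have b2 := mul_le_mul_of_nonneg_right h3s b1
  refine b2.trans ?_
  have b3 : 5 / 2 * s * (16 * (21 * δ * ℓ) + (2000 * (21 * δ * ℓ) + e * (M * ℓ))) =
      (105840 * (δ * s) + 5 / 2 * (e * M * s)) * ℓ := by ring
  rw [b3, hδs, heM]
  refine mul_le_mul_of_nonneg_right ?_ hℓ
  norm_num

/-- The error of a piece. -/
theorem hbdaux (s δ e M ℓ β τ x1 x2 x3 y : ℝ) (hs : 2 ≤ s) (hδ0 : 0 ≤ δ) (he : 0 ≤ e)
    (hM : 0 ≤ M) (hℓ : 0 ≤ ℓ) (hβ : 0 ≤ β) (hτ0 : 0 ≤ τ) (hτ1 : τ ≤ 1)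
    (hδs : δ * s = 1 / 500000) (heM : e * M * s = 1 / 40)
    (h1 : x1 ≤ 21 * δ * ℓ) (h2 : x2 ≤ 21 * δ * ℓ) (h3 : x3 ≤ M * ℓ) :
    (1 - τ) * y + τ * ((3 + s) * (16 * x1 + (2000 * x2 + e * x3) + β)) ≤
      (1 - τ) * y + (3 + s) * β + τ * (3 / 10 * ℓ) := by
  have a4 : e * x3 ≤ e * (M * ℓ) := mul_le_mul_of_nonneg_left h3 he
  have a5 := a5aux s δ e M ℓ hs hδ0 he hM hℓ hδs heM
  have b1 : 16 * x1 + (2000 * x2 + e * x3) + β ≤
      (16 * (21 * δ * ℓ) + (2000 * (21 * δ * ℓ) + e * (M * ℓ))) + β := by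
    linarith
  have b2 := mul_le_mul_of_nonneg_left b1 (show 0 ≤ 3 + s by linarith)
  rw [mul_add] at b2
  have a6 : (3 + s) * (16 * x1 + (2000 * x2 + e * x3) + β) ≤ 3 / 10 * ℓ + (3 + s) * β := by
    linarith
  have a7 := mul_le_mul_of_nonneg_left a6 hτ0
  have a8 : τ * ((3 + s) * β) ≤ 1 * ((3 + s) * β) :=
    mul_le_mul_of_nonneg_right hτ1 (mul_nonneg (by linarith) hβ)
  rw [mul_add] at a7
  linarith

end Pool.Agent.H87.PW
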