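import Mathlib
import Pool.Agent.H87.PW.Dec0

/-!
# The decomposition: extraction
-/

set_option autoImplicit false
set_option linter.unusedSectionVars false

namespace Pool.Agent.H87.PW

open Finset Real
open Pool.Agent.H87.LL
open scoped Pointwise BigOperators
open Pool.Agent.Y359.LE (En sm rep_ne rep_total En_eq En_double exists_level
  energy_le_cube popular En_young' En_le En_pos En_one absorb natlog_le lev)

/-- Extraction of the pieces. -/
theorem extractPW (J : ℕ) (δ : ℝ) (hδ : 0 < δ) :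
    ∃ t₀ : ℝ, 1 ≤ t₀ ∧ ∀ A : Finset ℤ, t₀ ≤ Real.log A.card → ∃ B ⊆ A,
      (∀ j ≤ J, (En B (2 ^ j) : ℝ) ≤ (A.card : ℝ) ^ (2 * (2 : ℝ) ^ j - 1 - j * δ)) ∧
      ∃ 𝒟 : Finset (Finset ℤ),
        (∀ D ∈ 𝒟, Piece (Real.exp (21 * δ * Real.log A.card)) ((A.card : ℝ) ^ (2 ^ J)) D ∧
          Real.exp ((1 - 6 * δ) * Real.log A.card) ≤ D.card) ∧
        A \ B ⊆ 𝒟.biUnion id ∧ ∑ D ∈ 𝒟, D.card ≤ A.card := by
  classical
  set M : ℕ := 2 ^ J with hM
  have hM1 : 1 ≤ M := Nat.one_le_two_pow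
  have hMr : (1 : ℝ) ≤ M := by exact_mod_cast hM1
  obtain ⟨t₀, ht₀, habs⟩ := absorb M δ 1 hMr hδ one_pos
  refine ⟨t₀, ht₀, ?_⟩
  intro A hsmall
  set ℓ : ℝ := Real.log A.card with hℓ
  have hℓ1 : 1 ≤ ℓ := ht₀.trans hsmall
  have hAne : A.Nonempty := by
    by_contra h
    rw [Finset.not_nonempty_iff_eq_empty] at h
    rw [hℓ, h] at hℓ1
    simp at hℓ1
    linarith
  have cA : (1 : ℝ) ≤ A.card := by exact_mod_cast hAne.card_pos
  have cA0 : (0 : ℝ) < A.card := by linarith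
  have hpow : ∀ x : ℝ, (A.card : ℝ) ^ x = Real.exp (x * ℓ) := fun x => by
    rw [Real.rpow_def_of_pos cA0]; congr 1; ring
  obtain ⟨habs1, habs2⟩ := habs ℓ hsmall
  set I : ℕ := M * (Nat.log 2 A.card + 1) with hI
  have hIr : (I : ℝ) ≤ M * (2 * ℓ + 1) := by
    rw [hI]; push_cast
    have := natlog_le A.card hAne.card_pos
    exact mul_le_mul_of_nonneg_left (by linarith) (by linarith)
  have hIlt : ∀ B ⊆ A, ∀ m ≤ M, B.card ^ m < 2 ^ I := by
    intro B hB m hm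
    have h1 : B.card < 2 ^ (Nat.log 2 A.card + 1) :=
      lt_of_le_of_lt (Finset.card_le_card hB) (Nat.lt_pow_succ_log_self (by norm_num) _)
    rcases Nat.eq_zero_or_pos m with h0 | h0
    · rw [h0, pow_zero, hI]
      exact Nat.one_lt_two_pow (Nat.mul_pos hM1 (Nat.succ_pos _)).ne'
    · calc B.card ^ m < (2 ^ (Nat.log 2 A.card + 1)) ^ m := Nat.pow_lt_pow_left h1 h0.ne'
        _ = 2 ^ (m * (Nat.log 2 A.card + 1)) := by rw [mul_comm, pow_mul]
        _ ≤ 2 ^ I := Nat.pow_le_pow_right (by norm_num) (Nat.mul_le_mul_right _ hm)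
  set κ : ℝ := Real.exp (δ * ℓ) with hκ
  have hκ1 : 1 ≤ κ := Real.one_le_exp (by positivity)
  set K : ℝ := κ * (2 * I) ^ 4 with hK
  have hI0 : (0 : ℝ) ≤ I := Nat.cast_nonneg _
  have hK2 : K ≤ Real.exp (2 * δ * ℓ) := by
    have h1 : (2 * (I : ℝ)) ^ 4 ≤ Real.exp (δ * ℓ) := by
      refine le_trans (pow_le_pow_left₀ (by positivity) ?_ 4) habs1
      linarith
    calc K ≤ κ * Real.exp (δ * ℓ) := mul_le_mul_of_nonneg_left h1 (by linarith)
      _ = Real.exp (2 * δ * ℓ) := by rw [hκ, ← Real.exp_add]; congr 1; ring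
  have hIpos : 1 ≤ I := by
    rw [hI]
    exact Nat.mul_pos hM1 (Nat.succ_pos _)
  have hI1 : (1 : ℝ) ≤ I := by exact_mod_cast hIpos
  have hK1 : 1 ≤ K := by
    have h1 : (1 : ℝ) ≤ (2 * I) ^ 4 := one_le_pow₀ (by linarith)
    rw [hK]
    nlinarith
  set X : ℝ := 2 ^ 22 * K ^ 10 with hX
  have hX0 : 0 < X := by positivity
  have hX2 : X ≤ Real.exp (21 * δ * ℓ) := by
    have h1 : (2 : ℝ) ^ 22 ≤ Real.exp (δ * ℓ) := by
      refine le_trans ?_ habs2
      nlinarith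
    calc X ≤ Real.exp (δ * ℓ) * Real.exp (2 * δ * ℓ) ^ 10 :=
          mul_le_mul h1 (pow_le_pow_left₀ (by linarith) hK2 10) (by positivity)
            (Real.exp_pos _).le
      _ = Real.exp (21 * δ * ℓ) := by
          rw [← Real.exp_nat_mul, ← Real.exp_add]; congr 1; push_cast; ring
  -- the iteration
  set s₀ : ℝ := Real.exp ((1 - δ) * ℓ) / (8 * K ^ 2) with hs₀
  have hs₀0 : 0 < s₀ := by positivity
  have hs₀ge : Real.exp ((1 - 6 * δ) * ℓ) ≤ s₀ := by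
    have h2 : (8 : ℝ) ≤ Real.exp (δ * ℓ) := by
      refine le_trans ?_ habs2
      nlinarith
    have h3 : (8 * K ^ 2) ≤ Real.exp (5 * δ * ℓ) := by
      calc 8 * K ^ 2 ≤ Real.exp (δ * ℓ) * Real.exp (2 * δ * ℓ) ^ 2 :=
            mul_le_mul h2 (pow_le_pow_left₀ (by linarith) hK2 2) (by positivity) (by positivity)
        _ = Real.exp (5 * δ * ℓ) := by
            rw [← Real.exp_nat_mul, ← Real.exp_add]; congr 1; push_cast; ring
    rw [hs₀, le_div_iff₀ (by positivity)]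
    calc Real.exp ((1 - 6 * δ) * ℓ) * (8 * K ^ 2) ≤
          Real.exp ((1 - 6 * δ) * ℓ) * Real.exp (5 * δ * ℓ) :=
          mul_le_mul_of_nonneg_left h3 (Real.exp_pos _).le
      _ = Real.exp ((1 - δ) * ℓ) := by rw [← Real.exp_add]; congr 1; ring
  have hstep : ∀ B ⊆ A, ¬ (∀ j ≤ J, (En B (2 ^ j) : ℝ) ≤
      (A.card : ℝ) ^ (2 * (2 : ℝ) ^ j - 1 - j * δ)) →
      ∃ D ⊆ B, Piece X ((A.card : ℝ) ^ M) D ∧ s₀ ≤ D.card := by
    intro B hBA hF
    push Not at hF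
    obtain ⟨j, hjJ, hF⟩ := hF
    have h2j : (1 : ℝ) ≤ 2 ^ j := one_le_pow₀ (by norm_num)
    have hBne : B.Nonempty := by
      by_contra h
      rw [Finset.not_nonempty_iff_eq_empty] at h
      have h1 : En B (2 ^ j) ≤ 0 := by
        rw [h]
        refine (En_le ∅ (2 ^ j)).trans ?_
        have : 2 * 2 ^ j ≠ 0 := by positivity
        simp [this]
      have h2 : (En B (2 ^ j) : ℝ) ≤ 0 := by exact_mod_cast h1
      have h3 : 0 < (A.card : ℝ) ^ (2 * (2 : ℝ) ^ j - 1 - j * δ) := Real.rpow_pos_of_pos cA0 _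
      linarith
    have hBA' : (B.card : ℝ) ≤ A.card := by exact_mod_cast Finset.card_le_card hBA
    have cB : (0 : ℝ) < B.card := by exact_mod_cast hBne.card_pos
    have hj1 : 1 ≤ j := by
      rcases Nat.eq_zero_or_pos j with h | h
      · exfalso
        rw [h, show (2 : ℕ) ^ 0 = 1 from rfl, En_one] at hF
        have e1 : (2 * (2 : ℝ) ^ 0 - 1 - ((0 : ℕ) : ℝ) * δ) = 1 := by norm_num
        rw [e1, Real.rpow_one] at hF
        linarith
      · exact h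
    obtain ⟨N, hN⟩ : ∃ N, 2 ^ j = N + 1 := ⟨2 ^ j - 1, by
      have := Nat.one_le_two_pow (n := j)
      omega⟩
    have hNr : (2 : ℝ) ^ j = N + 1 := by exact_mod_cast hN
    have hEle : (En B (2 ^ j) : ℝ) ≤ (B.card : ℝ) ^ (2 * N + 1) := by
      rw [hN]
      exact En_le' B N
    have hjN : (j : ℝ) ≤ 2 * N + 1 := by
      have h1 : j < 2 ^ j := Nat.lt_two_pow_self
      have h2 : j ≤ 2 * N + 1 := by omega
      exact_mod_cast h2
    -- `|B| ≥ |A| ^ (1 - δ)`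
    have h2 : Real.exp ((1 - δ) * ℓ) ≤ B.card := by
      have h3 := hF.le.trans hEle
      rw [hpow, ← Real.le_log_iff_exp_le (by positivity), Real.log_pow] at h3
      rw [← Real.le_log_iff_exp_le cB]
      push_cast at h3
      have h4 : (2 * (N : ℝ) + 1) * ((1 - δ) * ℓ) ≤ (2 * N + 1) * Real.log B.card := by
        refine le_trans ?_ h3
        rw [hNr]
        have h5 : (j : ℝ) * (δ * ℓ) ≤ (2 * N + 1) * (δ * ℓ) :=
          mul_le_mul_of_nonneg_right hjN (by positivity)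
        linarith
      exact le_of_mul_le_mul_left h4 (by positivity)
    -- a slow step
    have h3 : (B.card : ℝ) ^ (2 * 2 ^ j) ≤ κ ^ j * En B (2 ^ j) * B.card := by
      have h4 : (B.card : ℝ) ^ (2 * N + 1) ≤ κ ^ j * En B (2 ^ j) := by
        calc (B.card : ℝ) ^ (2 * N + 1) ≤ (A.card : ℝ) ^ (2 * N + 1) :=
              pow_le_pow_left₀ cB.le hBA' _
          _ = κ ^ j * (A.card : ℝ) ^ (2 * (2 : ℝ) ^ j - 1 - j * δ) := by
              rw [← Real.rpow_natCast, hpow, hpow, hκ, ← Real.exp_nat_mul, ← Real.exp_add, hNr]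
              congr 1
              push_cast
              ring
          _ ≤ κ ^ j * En B (2 ^ j) := mul_le_mul_of_nonneg_left hF.le (by positivity)
      have h5 : (B.card : ℝ) ^ (2 * 2 ^ j) = (B.card : ℝ) ^ (2 * N + 1) * B.card := by
        rw [← pow_succ, hN]
        congr 1
      rw [h5]
      exact mul_le_mul_of_nonneg_right h4 cB.le
    obtain ⟨i, hi, hslow⟩ := exists_slow B j hj1 κ (by linarith) h3 hBne
    obtain ⟨n, hn⟩ : ∃ n, 2 ^ i = n + 1 := ⟨2 ^ i - 1, by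
      have := Nat.one_le_two_pow (n := i)
      omega⟩
    have hnM : n + 1 ≤ M := by
      rw [← hn, hM]
      exact Nat.pow_le_pow_right (by norm_num) (by omega)
    rw [hn] at hslow
    obtain ⟨D, hDB, P, hPne, hcard, hsum1, hsum2, hPc⟩ :=
      extract_step B hBne n I (hIlt B hBA (n + 1) hnM) κ K hκ1 hK hslow
    refine ⟨D, hDB, ⟨P, hPne, hsum1, hsum2, ?_⟩, ?_⟩
    · calc (P.card : ℝ) ≤ (B.card : ℝ) ^ (n + 1) := hPc
        _ ≤ (A.card : ℝ) ^ (n + 1) := pow_le_pow_left₀ cB.le hBA' _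
        _ ≤ (A.card : ℝ) ^ M := pow_le_pow_right₀ cA hnM
    · rw [hs₀, div_le_iff₀ (by positivity)]
      linarith
  obtain ⟨B, hBA, hFB, 𝒟, h𝒟1, h𝒟2, h𝒟3⟩ := iterate' (fun B => ∀ j ≤ J, (En B (2 ^ j) : ℝ) ≤
      (A.card : ℝ) ^ (2 * (2 : ℝ) ^ j - 1 - j * δ)) (Piece X ((A.card : ℝ) ^ M)) s₀ hs₀0 A hstep
    A.card A (Finset.Subset.refl _) rfl
  refine ⟨B, hBA, hFB, 𝒟, ?_, h𝒟2, h𝒟3⟩
  intro D hD
  obtain ⟨⟨P, hP1, hP2, hP3, hP4⟩, hDs, _⟩ := h𝒟1 D hD
  have hPc : (0 : ℝ) ≤ P.card := Nat.cast_nonneg _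
  refine ⟨⟨P, hP1, hP2.trans (mul_le_mul_of_nonneg_right hX2 hPc),
    hP3.trans (mul_le_mul_of_nonneg_right hX2 hPc), hP4⟩, hs₀ge.trans hDs⟩

end Pool.Agent.H87.PW
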